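import Pool.Agent.H53.Ultra.Signs

set_option autoImplicit false

open scoped ENNReal ComplexConjugate
open Filter Topology

namespace Pool.Agent.H53.Ultra

universe v w

set_option linter.unusedSectionVars false

variable {B : Type w} [Ring B] [StarRing B] [Algebra ℂ B] [StarModule ℂ B]

/-- a pair of anticommuting symmetries -/
structure IsSite (z s : B) : Prop where
  star_z : star z = z
  z_sq : z * z = 1
  star_s : star s = s
  s_sq : s * s = 1
  anti : z * s = -(s * z)

/-- a sequence of mutually commuting sites -/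
structure IsSites {κ : Type*} (z s : κ → B) : Prop where
  site : ∀ k, IsSite (z k) (s k)
  zz : ∀ k l, k ≠ l → Commute (z k) (z l)
  zs : ∀ k l, k ≠ l → Commute (z k) (s l)
  ss : ∀ k l, k ≠ l → Commute (s k) (s l)

/-- a partition of unity into `2^l` conjugate projections, inside the algebra of the first
`l` sites -/
structure Block (z s : ℕ → B) (l : ℕ) where
  ι : Type
  [fin : Fintype ι]
  [dec : DecidableEq ι]
  [ne : Nonempty ι]
  E : ι → B
  card : Fintype.card ι = 2 ^ l
  star_E : ∀ i, star (E i) = E i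
  mul_self : ∀ i, E i * E i = E i
  mul_ne : ∀ i j, i ≠ j → E i * E j = 0
  sum : ∑ i, E i = 1
  comm : ∀ y : B, (∀ k < l, Commute y (z k) ∧ Commute y (s k)) → ∀ i, Commute y (E i)
  cj : ∀ i j, ∃ u : B, star u * u = 1 ∧ u * star u = 1 ∧ E i = u * E j * star u ∧
    (∀ y : B, (∀ k < l, Commute y (z k) ∧ Commute y (s k)) → Commute y u)

attribute [instance] Block.fin Block.dec Block.ne

/-- the spectral projections of a symmetry -/
noncomputable def pr (z : B) (b : Bool) : B := (1/2 : ℂ) • (1 + (if b then (1:ℂ) else -1) • z)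

lemma pr_sum (z : B) : pr z true + pr z false = 1 := by
  unfold pr
  rw [← smul_add]
  simp only [if_true, Bool.false_eq_true, if_false, one_smul, neg_smul]
  have : (1 + z + (1 + -z) : B) = (2:ℂ) • 1 := by rw [two_smul]; abel
  rw [this, smul_smul]; norm_num

lemma star_pr {z : B} (hz : star z = z) (b : Bool) : star (pr z b) = pr z b := by
  unfold pr
  cases b <;> simp [hz]

lemma pr_mul_self {z : B} (hz : z * z = 1) (b : Bool) : pr z b * pr z b = pr z b := by
  unfold pr
  cases b
  · simp only [Bool.false_eq_true, if_false, neg_smul, one_smul]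
    rw [smul_mul_smul_comm]
    have : (1 + -z) * (1 + -z) = (2:ℂ) • (1 + -z) := by
      have : (1 + -z) * (1 + -z) = 1 - z - z + z * z := by noncomm_ring
      rw [this, hz, two_smul]; abel
    rw [this, smul_smul]; norm_num
  · simp only [if_true, one_smul]
    rw [smul_mul_smul_comm]
    have : (1 + z) * (1 + z) = (2:ℂ) • (1 + z) := by
      have : (1 + z) * (1 + z) = 1 + z + z + z * z := by noncomm_ring
      rw [this, hz, two_smul]; abel
    rw [this, smul_smul]; norm_num

lemma pr_mul_ne {z : B} (hz : z * z = 1) (b c : Bool) (h : b ≠ c) : pr z b * pr z c = 0 := by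
  have key1 : (1 + -z) * (1 + z) = 0 := by
    have : (1 + -z) * (1 + z) = 1 - z * z := by noncomm_ring
    rw [this, hz, sub_self]
  have key2 : (1 + z) * (1 + -z) = 0 := by
    have : (1 + z) * (1 + -z) = 1 - z * z := by noncomm_ring
    rw [this, hz, sub_self]
  unfold pr
  cases b <;> cases c
  · exact absurd rfl h
  · simp only [Bool.false_eq_true, if_false, if_true, neg_smul, one_smul]
    rw [smul_mul_smul_comm, key1, smul_zero]
  · simp only [Bool.false_eq_true, if_false, if_true, neg_smul, one_smul]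
    rw [smul_mul_smul_comm, key2, smul_zero]
  · exact absurd rfl h

lemma commute_pr {y z : B} (h : Commute y z) (b : Bool) : Commute y (pr z b) := by
  unfold pr
  exact ((Commute.one_right y).add_right (h.smul_right _)).smul_right _

lemma s_pr_s {z s : B} (h : IsSite z s) (b : Bool) : s * pr z b * s = pr z (!b) := by
  unfold pr
  have h1 : s * z * s = -z := by
    have h2 : s * z = -(z * s) := by rw [h.anti, neg_neg]
    rw [h2, neg_mul, mul_assoc, h.s_sq, mul_one]
  rw [mul_smul_comm, smul_mul_assoc, mul_add, add_mul, mul_one, h.s_sq, mul_smul_comm,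
    smul_mul_assoc, h1]
  cases b <;> simp

theorem exists_block {z s : ℕ → B} (hs : IsSites z s) (l : ℕ) : Nonempty (Block z s l) := by
  induction l with
  | zero =>
    refine ⟨{ ι := Unit
              E := (fun _ => 1)
              card := (by simp)
              star_E := (by simp)
              mul_self := (by simp)
              mul_ne := ?_
              sum := (by simp)
              comm := (fun y _ _ => Commute.one_right y)
              cj := ?_ }⟩
    · intro i j hij; exact absurd (Subsingleton.elim i j) hij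
    · intro i j
      exact ⟨1, by simp, by simp, by simp, fun y _ => Commute.one_right y⟩
  | succ l ih =>
    obtain ⟨P⟩ := ih
    have hzl := hs.site l
    -- commutation of the old block with the new site
    have cz : ∀ k < l, Commute (z l) (z k) ∧ Commute (z l) (s k) := fun k hk =>
      ⟨hs.zz l k (by omega), hs.zs l k (by omega)⟩
    have cs : ∀ k < l, Commute (s l) (z k) ∧ Commute (s l) (s k) := fun k hk =>
      ⟨(hs.zs k l (by omega)).symm, hs.ss l k (by omega)⟩
    have hzE := P.comm (z l) cz
    have hsE := P.comm (s l) cs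
    have hpE : ∀ b i, Commute (pr (z l) b) (P.E i) := fun b i =>
      (commute_pr (hzE i).symm b).symm
    refine ⟨{ ι := P.ι × Bool
              E := fun x => P.E x.1 * pr (z l) x.2
              card := ?_
              star_E := ?_
              mul_self := ?_
              mul_ne := ?_
              sum := ?_
              comm := ?_
              cj := ?_ }⟩
    · rw [Fintype.card_prod, P.card, Fintype.card_bool, pow_succ]
    · intro x
      rw [star_mul, star_pr hzl.star_z, P.star_E, (hpE x.2 x.1).eq]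
    · intro x
      calc P.E x.1 * pr (z l) x.2 * (P.E x.1 * pr (z l) x.2)
          = P.E x.1 * (pr (z l) x.2 * P.E x.1) * pr (z l) x.2 := by noncomm_ring
        _ = P.E x.1 * P.E x.1 * (pr (z l) x.2 * pr (z l) x.2) := by
            rw [(hpE x.2 x.1).eq]; noncomm_ring
        _ = _ := by rw [P.mul_self, pr_mul_self hzl.z_sq]
    · intro x y hxy
      have e : P.E x.1 * pr (z l) x.2 * (P.E y.1 * pr (z l) y.2) =
          P.E x.1 * P.E y.1 * (pr (z l) x.2 * pr (z l) y.2) := by
        calc P.E x.1 * pr (z l) x.2 * (P.E y.1 * pr (z l) y.2)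
            = P.E x.1 * (pr (z l) x.2 * P.E y.1) * pr (z l) y.2 := by noncomm_ring
          _ = _ := by rw [(hpE x.2 y.1).eq]; noncomm_ring
      rw [e]
      by_cases h1 : x.1 = y.1
      · have h2 : x.2 ≠ y.2 := fun h2 => hxy (Prod.ext h1 h2)
        rw [pr_mul_ne hzl.z_sq _ _ h2, mul_zero]
      · rw [P.mul_ne _ _ h1, zero_mul]
    · rw [Fintype.sum_prod_type]
      simp only [Fintype.sum_bool]
      have : ∀ i, P.E i * pr (z l) true + P.E i * pr (z l) false = P.E i := by
        intro i; rw [← mul_add, pr_sum, mul_one]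
      simp_rw [this]
      exact P.sum
    · intro y hy x
      have h1 := P.comm y (fun k hk => hy k (by omega)) x.1
      exact h1.mul_right (commute_pr (hy l (by omega)).1 _)
    · rintro ⟨i, b⟩ ⟨j, c⟩
      obtain ⟨u, hu1, hu2, hu3, hu4⟩ := P.cj i j
      have huz := (hu4 (z l) cz)
      have hus := (hu4 (s l) cs)
      have hup : ∀ b, Commute (pr (z l) b) u := fun b => (commute_pr huz.symm b).symm
      by_cases hbc : b = c
      · subst hbc
        refine ⟨u, hu1, hu2, ?_, fun y hy => hu4 y (fun k hk => hy k (by omega))⟩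
        simp only
        have hup' : Commute (pr (z l) b) (star u) := by
          have := (hup b).star_star
          rwa [star_pr hzl.star_z] at this
        calc P.E i * pr (z l) b = u * P.E j * star u * pr (z l) b := by rw [hu3]
          _ = u * P.E j * (star u * pr (z l) b) := by noncomm_ring
          _ = u * (P.E j * pr (z l) b) * star u := by rw [← hup'.eq]; noncomm_ring
      · have hcb : c = !b := by cases b <;> cases c <;> simp_all
        subst hcb
        refine ⟨u * s l, ?_, ?_, ?_, ?_⟩
        · rw [star_mul, hzl.star_s]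
          calc s l * star u * (u * s l) = s l * (star u * u) * s l := by noncomm_ring
            _ = 1 := by rw [hu1, mul_one, hzl.s_sq]
        · rw [star_mul, hzl.star_s]
          calc u * s l * (s l * star u) = u * (s l * s l) * star u := by noncomm_ring
            _ = 1 := by rw [hzl.s_sq, mul_one, hu2]
        · simp only
          rw [star_mul, hzl.star_s]
          have hup' : Commute (pr (z l) b) (star u) := by
            have := (hup b).star_star
            rwa [star_pr hzl.star_z] at this
          calc P.E i * pr (z l) b = u * P.E j * star u * pr (z l) b := by rw [hu3]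
            _ = u * P.E j * (star u * pr (z l) b) := by noncomm_ring
            _ = u * P.E j * pr (z l) b * star u := by rw [← hup'.eq]; noncomm_ring
            _ = u * P.E j * (s l * pr (z l) (!b) * s l) * star u := by
                rw [s_pr_s hzl, Bool.not_not]
            _ = u * (P.E j * s l) * pr (z l) (!b) * (s l * star u) := by noncomm_ring
            _ = u * (s l * P.E j) * pr (z l) (!b) * (s l * star u) := by rw [(hsE j).eq]
            _ = _ := by noncomm_ring
        · intro y hy
          exact (hu4 y (fun k hk => hy k (by omega))).mul_right (hy l (by omega)).2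

/-- the signed sum of a block -/
noncomputable def Block.F {z s : ℕ → B} {l : ℕ} (P : Block z s l) (T : Finset P.ι) : B :=
  ∑ i, sg T i • P.E i

lemma Block.star_F {z s : ℕ → B} {l : ℕ} (P : Block z s l) (T : Finset P.ι) :
    star (P.F T) = P.F T := by
  unfold Block.F
  rw [star_sum]
  apply Finset.sum_congr rfl
  intro i _
  rw [star_smul, star_sg, P.star_E]

lemma Block.F_sq {z s : ℕ → B} {l : ℕ} (P : Block z s l) (T : Finset P.ι) :
    P.F T * P.F T = 1 := by
  unfold Block.F
  rw [Finset.sum_mul, ← P.sum]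
  apply Finset.sum_congr rfl
  intro i _
  rw [Finset.mul_sum, Finset.sum_eq_single i]
  · rw [smul_mul_smul_comm, sg_sq, P.mul_self, one_smul]
  · intro j _ hj
    rw [smul_mul_smul_comm, P.mul_ne i j (Ne.symm hj), smul_zero]
  · intro h; exact absurd (Finset.mem_univ _) h

lemma Block.comm_F {z s : ℕ → B} {l : ℕ} (P : Block z s l) (T : Finset P.ι) (y : B)
    (hy : ∀ k, Commute y (z k) ∧ Commute y (s k)) : Commute y (P.F T) := by
  unfold Block.F
  apply Commute.sum_right
  intro i _
  exact (P.comm y (fun k _ => hy k) i).smul_right _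

variable {G : Type v} [Group G]

/-- In the image of a block in `L(G)` there are signed sums with small Fourier coefficients. -/
theorem exists_small_symmetry (Ψ : B →⋆ₐ[ℂ] LG G) {z s : ℕ → B} (hs : IsSites z s) (z₀ : B)
    (hz₀ : star z₀ = z₀) (hz₀' : z₀ * z₀ = 1) (δ : ℝ) (hδ : 0 < δ) :
    ∃ F : B, star F = F ∧ F * F = 1 ∧
      (∀ y : B, (∀ k, Commute y (z k) ∧ Commute y (s k)) → Commute y F) ∧
      ∀ g : G, ‖((Ψ (z₀ * F) : ell2 G →L[ℂ] ell2 G) (dl 1)) g‖ ≤ δ := by
  obtain ⟨l, hl⟩ := exists_nat_gt (3 / δ ^ 4)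
  have hl2 : (3:ℝ) / 2 ^ l ≤ δ ^ 4 := by
    have h1 : (l:ℝ) < 2 ^ l := by exact_mod_cast Nat.lt_two_pow_self
    have h2 : 3 / δ ^ 4 < 2 ^ l := hl.trans h1
    rw [div_lt_iff₀ (by positivity)] at h2
    rw [div_le_iff₀ (by positivity)]
    linarith
  obtain ⟨P⟩ := exists_block hs l
  set f : P.ι → ell2 G := fun i => (Ψ (z₀ * P.E i) : ell2 G →L[ℂ] ell2 G) (dl 1) with hf
  -- inner products
  have hinner : ∀ i j, (inner ℂ (f i) (f j) : ℂ) =
      inner ℂ (dl 1) ((Ψ (P.E i * P.E j) : ell2 G →L[ℂ] ell2 G) (dl 1)) := by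
    intro i j
    rw [hf]
    simp only
    rw [← ContinuousLinearMap.adjoint_inner_right, ← ContinuousLinearMap.star_eq_adjoint,
      ← mul_apply_eq_comp]
    congr 2
    have e1 : star ((Ψ (z₀ * P.E i) : LG G) : ell2 G →L[ℂ] ell2 G) *
        ((Ψ (z₀ * P.E j) : LG G) : ell2 G →L[ℂ] ell2 G) =
        ((star (Ψ (z₀ * P.E i)) * Ψ (z₀ * P.E j) : LG G) : ell2 G →L[ℂ] ell2 G) := rfl
    have e2 : star (z₀ * P.E i) * (z₀ * P.E j) = P.E i * P.E j := by
      rw [star_mul, hz₀, P.star_E]
      calc P.E i * z₀ * (z₀ * P.E j) = P.E i * (z₀ * z₀) * P.E j := by noncomm_ring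
        _ = _ := by rw [hz₀', mul_one]
    rw [e1, ← map_star, ← map_mul, e2]
  have hortho : ∀ i j, i ≠ j → (inner ℂ (f i) (f j) : ℂ) = 0 := by
    intro i j hij
    rw [hinner, P.mul_ne i j hij, map_zero]
    simp
  -- all projections have the same trace
  have htr : ∀ i j, (inner ℂ (dl 1) ((Ψ (P.E i) : ell2 G →L[ℂ] ell2 G) (dl 1)) : ℂ) =
      inner ℂ (dl 1) ((Ψ (P.E j) : ell2 G →L[ℂ] ell2 G) (dl 1)) := by
    intro i j
    obtain ⟨u, hu1, hu2, hu3, -⟩ := P.cj i j
    have e1 : ((Ψ (P.E i) : LG G) : ell2 G →L[ℂ] ell2 G) =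
        ((Ψ (u * P.E j) : LG G) : ell2 G →L[ℂ] ell2 G) *
        ((Ψ (star u) : LG G) : ell2 G →L[ℂ] ell2 G) := by
      rw [hu3, map_mul]; rfl
    rw [e1, trace_comm (Ψ (u * P.E j)).2 (Ψ (star u)).2]
    have e2 : ((Ψ (star u) : LG G) : ell2 G →L[ℂ] ell2 G) *
        ((Ψ (u * P.E j) : LG G) : ell2 G →L[ℂ] ell2 G) =
        ((Ψ (star u * (u * P.E j)) : LG G) : ell2 G →L[ℂ] ell2 G) := by
      rw [map_mul Ψ (star u) (u * P.E j)]; rfl
    rw [e2, ← mul_assoc, hu1, one_mul]
  have hsum : ∑ i, (inner ℂ (dl 1) ((Ψ (P.E i) : ell2 G →L[ℂ] ell2 G) (dl 1)) : ℂ) = 1 := by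
    rw [← inner_sum]
    have : ∑ i, (Ψ (P.E i) : ell2 G →L[ℂ] ell2 G) (dl (1:G)) = dl 1 := by
      have h1 : ((Ψ (∑ i, P.E i) : LG G) : ell2 G →L[ℂ] ell2 G) (dl (1:G)) = dl 1 := by
        rw [P.sum, map_one]; rfl
      rw [map_sum, AddSubmonoidClass.coe_finsetSum, _root_.sum_apply] at h1
      exact h1
    rw [this, inner_self_eq_norm_sq_to_K, norm_dl]
    simp
  have hcard : (0:ℝ) < Fintype.card P.ι := by exact_mod_cast Fintype.card_pos
  have hnorm : ∀ i, ‖f i‖ ^ 2 = 1 / (Fintype.card P.ι : ℝ) := by
    intro i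
    have h1 : (inner ℂ (f i) (f i) : ℂ) = 1 / (Fintype.card P.ι : ℂ) := by
      rw [hinner, P.mul_self]
      have h2 : (Fintype.card P.ι : ℂ) *
          inner ℂ (dl 1) ((Ψ (P.E i) : ell2 G →L[ℂ] ell2 G) (dl 1)) = 1 := by
        rw [← hsum, ← nsmul_eq_mul, ← Finset.card_univ, ← Finset.sum_const]
        exact Finset.sum_congr rfl fun j _ => htr i j
      have hne : (Fintype.card P.ι : ℂ) ≠ 0 := by exact_mod_cast hcard.ne'
      field_simp
      linear_combination h2
    rw [inner_self_eq_norm_sq_to_K] at h1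
    have h3 : ((‖f i‖ ^ 2 : ℝ) : ℂ) = ((1 / (Fintype.card P.ι : ℝ) : ℝ) : ℂ) := by
      push_cast
      exact h1
    exact_mod_cast h3
  obtain ⟨T, hT⟩ := exists_small_height f hortho hnorm
  refine ⟨P.F T, P.star_F T, P.F_sq T, fun y hy => P.comm_F T y hy, ?_⟩
  intro g
  have e : ((Ψ (z₀ * P.F T) : ell2 G →L[ℂ] ell2 G) (dl 1)) g = ∑ i, sg T i * (f i) g := by
    unfold Block.F
    rw [Finset.mul_sum, map_sum, AddSubmonoidClass.coe_finsetSum, _root_.sum_apply,
      lp.coeFn_sum, Finset.sum_apply]
    apply Finset.sum_congr rfl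
    intro i _
    rw [mul_smul_comm, map_smul]
    rfl
  rw [e]
  have h4 := hT g
  rw [P.card] at h4
  push_cast at h4
  have h5 : ‖∑ i, sg T i * (f i) g‖ ^ 4 ≤ δ ^ 4 := h4.trans hl2
  exact le_of_pow_le_pow_left₀ (by norm_num) hδ.le h5

end Pool.Agent.H53.Ultra
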