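import Pool.Agent.H53.Ultra.Blocks

set_option autoImplicit false
set_option linter.unusedSectionVars false

open scoped ENNReal ComplexConjugate
open Filter Topology

namespace Pool.Agent.H53.Ultra

universe v w

variable {B : Type w} [Ring B] [StarRing B] [Algebra ℂ B] [StarModule ℂ B]

/-- the conditional flip -/
noncomputable def cflip (F s : B) : B := pr F true + pr F false * s

lemma cflip_unitary {F s : B} (hF : star F = F) (hF2 : F * F = 1) (hs : star s = s)
    (hs2 : s * s = 1) (hc : Commute F s) :
    star (cflip F s) * cflip F s = 1 ∧ cflip F s * star (cflip F s) = 1 := by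
  have hps : Commute (pr F false) s := (commute_pr hc.symm false).symm
  have e1 : star (cflip F s) = cflip F s := by
    unfold cflip
    rw [star_add, star_mul, star_pr hF, star_pr hF, hs, hps.eq]
  have e2 : cflip F s * cflip F s = 1 := by
    unfold cflip
    have h1 : pr F true * (pr F false * s) = 0 := by
      rw [← mul_assoc, pr_mul_ne hF2 _ _ (by simp), zero_mul]
    have h2 : pr F false * s * pr F true = 0 := by
      have : Commute s (pr F true) := commute_pr hc.symm true
      rw [mul_assoc, this.eq, ← mul_assoc, pr_mul_ne hF2 _ _ (by simp), zero_mul]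
    have h3 : pr F false * s * (pr F false * s) = pr F false := by
      calc pr F false * s * (pr F false * s) = pr F false * (s * pr F false) * s := by noncomm_ring
        _ = pr F false * pr F false * (s * s) := by rw [← hps.eq]; noncomm_ring
        _ = _ := by rw [pr_mul_self hF2, hs2, mul_one]
    rw [add_mul, mul_add, mul_add, h1, h2, h3, pr_mul_self hF2, add_zero, zero_add, pr_sum]
  rw [e1]
  exact ⟨e2, e2⟩

lemma cflip_conj {F z s : B} (hF2 : F * F = 1) (hs : IsSite z s) (hcz : Commute F z)
    (hc : Commute F s) : cflip F s * z = z * F * cflip F s := by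
  unfold cflip
  have h1 : F * pr F true = pr F true := by
    unfold pr
    simp only [if_true, one_smul]
    rw [mul_smul_comm, mul_add, mul_one, hF2, add_comm]
  have h2 : F * pr F false = - pr F false := by
    unfold pr
    simp only [Bool.false_eq_true, if_false, neg_smul, one_smul]
    rw [mul_smul_comm, mul_add, mul_one, mul_neg, hF2, ← smul_neg]
    congr 1
    abel
  have h3 : Commute z (pr F true) := commute_pr hcz.symm true
  have h4 : Commute z (pr F false) := commute_pr hcz.symm false
  have h5 : s * z = -(z * s) := by rw [hs.anti, neg_neg]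
  calc (pr F true + pr F false * s) * z = pr F true * z + pr F false * (s * z) := by noncomm_ring
    _ = z * pr F true - z * pr F false * s := by
        rw [h5, ← h3.eq, mul_neg, ← mul_assoc, ← h4.eq, sub_eq_add_neg]
    _ = z * (F * pr F true) + z * (F * pr F false) * s := by
        rw [h1, h2]; noncomm_ring
    _ = _ := by noncomm_ring

lemma commute_cflip {F s y : B} (h1 : Commute y F) (h2 : Commute y s) : Commute y (cflip F s) := by
  unfold cflip
  exact (commute_pr h1 true).add_right ((commute_pr h1 false).mul_right h2)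

/-- partial products of conditional flips -/
noncomputable def vprod (c : ℕ → B) : ℕ → B
  | 0 => 1
  | n + 1 => vprod c n * c n

lemma vprod_unitary {c : ℕ → B} (h : ∀ n, star (c n) * c n = 1 ∧ c n * star (c n) = 1) (n : ℕ) :
    star (vprod c n) * vprod c n = 1 ∧ vprod c n * star (vprod c n) = 1 := by
  induction n with
  | zero => simp [vprod]
  | succ n ih =>
    unfold vprod
    rw [star_mul]
    constructor
    · calc star (c n) * star (vprod c n) * (vprod c n * c n)
          = star (c n) * (star (vprod c n) * vprod c n) * c n := by noncomm_ring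
        _ = 1 := by rw [ih.1, mul_one, (h n).1]
    · calc vprod c n * c n * (star (c n) * star (vprod c n))
          = vprod c n * (c n * star (c n)) * star (vprod c n) := by noncomm_ring
        _ = 1 := by rw [(h n).2, mul_one, ih.2]

lemma commute_vprod {c : ℕ → B} {y : B} (n : ℕ) (h : ∀ k < n, Commute y (c k)) :
    Commute y (vprod c n) := by
  induction n with
  | zero => exact Commute.one_right y
  | succ n ih =>
    unfold vprod
    exact (ih fun k hk => h k (by omega)).mul_right (h n (by omega))

variable {G : Type v} [Group G]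

/-- Given a doubly indexed family of sites in a *-algebra `B` and a unital *-homomorphism `Ψ` from
`B` to `L(G)`, there are symmetries `x j` and unitaries `V n` of `B` such that `V n` conjugates
`z j 0` to `x j` for all `j < n`, but no unitary of `L(G)` conjugates all `Ψ (z j 0)` to
`Ψ (x j)`. -/
theorem exists_unconj (Ψ : B →⋆ₐ[ℂ] LG G) {z s : ℕ × ℕ → B} (hs : IsSites z s) :
    ∃ x V : ℕ → B, (∀ n, star (V n) * V n = 1 ∧ V n * star (V n) = 1) ∧
      (∀ j n, j < n → V n * z (j, 0) = x j * V n) ∧
      ¬ ∃ v : LG G, star v * v = 1 ∧ ∀ j, v * Ψ (z (j, 0)) = Ψ (x j) * v := by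
  classical
  -- Fourier side of `z (j,0)`
  set y : ℕ → ell2 G := fun j => (Ψ (z (j, 0)) : ell2 G →L[ℂ] ell2 G) (dl 1) with hy
  have hF : ∀ j, ∃ F : Finset G, ‖y j - trunc (y j) F‖ < 1 / (2 * ((j:ℝ) + 1)) := fun j =>
    exists_trunc (y j) _ (by positivity)
  choose S hS using hF
  set M : ℕ → ℝ := fun j => ∑ g ∈ S j, ‖y j g‖ with hM
  have hM0 : ∀ j, 0 ≤ M j := fun j => Finset.sum_nonneg fun g _ => norm_nonneg _
  set δ : ℕ → ℝ := fun j => 1 / (2 * ((j:ℝ) + 1) * (M j + 1)) with hδ
  have hδ0 : ∀ j, 0 < δ j := fun j => by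
    have := hM0 j
    rw [hδ]; positivity
  have hsites : ∀ j, IsSites (fun k => z (j, k + 1)) (fun k => s (j, k + 1)) := by
    intro j
    refine ⟨fun k => hs.site _, ?_, ?_, ?_⟩
    · intro k l hkl; exact hs.zz _ _ (by simpa using hkl)
    · intro k l hkl; exact hs.zs _ _ (by simpa using hkl)
    · intro k l hkl; exact hs.ss _ _ (by simpa using hkl)
  have hex : ∀ j, ∃ F : B, star F = F ∧ F * F = 1 ∧
      (∀ t : B, (∀ k, Commute t (z (j, k + 1)) ∧ Commute t (s (j, k + 1))) → Commute t F) ∧
      ∀ g : G, ‖((Ψ (z (j, 0) * F) : ell2 G →L[ℂ] ell2 G) (dl 1)) g‖ ≤ δ j := fun j =>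
    exists_small_symmetry Ψ (hsites j) (z (j, 0)) (hs.site _).star_z (hs.site _).z_sq (δ j) (hδ0 j)
  choose F hF1 hF2 hF3 hF4 using hex
  -- commutations of `F j`
  have hFz : ∀ j p, (p.1 ≠ j ∨ p.2 = 0) → Commute (z p) (F j) := by
    rintro j ⟨a, b⟩ hp
    apply hF3
    intro k
    have hne : (a, b) ≠ (j, k + 1) := by
      intro h
      rw [Prod.mk.injEq] at h
      rcases hp with hp | hp
      · exact hp h.1
      · simp only at hp; omega
    exact ⟨hs.zz _ _ hne, hs.zs _ _ hne⟩
  have hFs : ∀ j p, (p.1 ≠ j ∨ p.2 = 0) → Commute (s p) (F j) := by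
    rintro j ⟨a, b⟩ hp
    apply hF3
    intro k
    have hne : (a, b) ≠ (j, k + 1) := by
      intro h
      rw [Prod.mk.injEq] at h
      rcases hp with hp | hp
      · exact hp h.1
      · simp only at hp; omega
    exact ⟨(hs.zs _ _ hne.symm).symm, hs.ss _ _ hne⟩
  have hFF : ∀ i j, i ≠ j → Commute (F i) (F j) := by
    intro i j hij
    apply hF3
    intro k
    exact ⟨(hFz i (j, k+1) (Or.inl (Ne.symm hij))).symm, (hFs i (j, k+1) (Or.inl (Ne.symm hij))).symm⟩
  set c : ℕ → B := fun j => cflip (F j) (s (j, 0)) with hc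
  have hcu : ∀ j, star (c j) * c j = 1 ∧ c j * star (c j) = 1 := fun j =>
    cflip_unitary (hF1 j) (hF2 j) (hs.site _).star_s (hs.site _).s_sq
      (hFs j (j, 0) (Or.inr rfl)).symm
  have hczj : ∀ j, c j * z (j, 0) = z (j, 0) * F j * c j := fun j =>
    cflip_conj (hF2 j) (hs.site _) (hFz j (j,0) (Or.inr rfl)).symm (hFs j (j,0) (Or.inr rfl)).symm
  have hczk : ∀ j k, j ≠ k → Commute (z (j, 0)) (c k) := fun j k hjk =>
    commute_cflip (hFz k (j, 0) (Or.inr rfl)) (hs.zs _ _ (by simpa using hjk))
  have hcFk : ∀ j k, j ≠ k → Commute (F j) (c k) := fun j k hjk =>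
    commute_cflip (hFF j k hjk) (hFs j (k, 0) (Or.inr rfl)).symm
  set x : ℕ → B := fun j => z (j, 0) * F j with hx
  refine ⟨x, vprod c, vprod_unitary hcu, ?_, ?_⟩
  · intro j n hjn
    induction n with
    | zero => omega
    | succ n ih =>
      unfold vprod
      rcases Nat.lt_or_ge j n with h | h
      · calc vprod c n * c n * z (j, 0) = vprod c n * (c n * z (j, 0)) := by noncomm_ring
          _ = vprod c n * z (j, 0) * c n := by
              rw [← (hczk j n (by omega)).eq]; noncomm_ring
          _ = x j * vprod c n * c n := by rw [ih h]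
          _ = _ := by noncomm_ring
      · have hj : j = n := by omega
        subst hj
        have hcomm : Commute (x j) (vprod c j) := by
          apply commute_vprod
          intro k hk
          exact (hczk j k (by omega)).mul_left (hcFk j k (by omega))
        calc vprod c j * c j * z (j, 0) = vprod c j * (c j * z (j, 0)) := by noncomm_ring
          _ = vprod c j * (x j * c j) := by rw [hczj]
          _ = vprod c j * x j * c j := by noncomm_ring
          _ = x j * vprod c j * c j := by rw [hcomm.eq]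
          _ = _ := by noncomm_ring
  · rintro ⟨v, hv1, hv2⟩
    have hxs : ∀ j, star (x j) = x j := fun j => by
      rw [hx]; simp only
      rw [star_mul, hF1, (hs.site _).star_z, (hFz j (j, 0) (Or.inr rfl)).eq]
    have hxx : ∀ j, x j * x j = 1 := fun j => by
      have h1 := (hFz j (j, 0) (Or.inr rfl)).eq
      calc x j * x j = z (j, 0) * (F j * z (j, 0)) * F j := by rw [hx]; noncomm_ring
        _ = z (j, 0) * z (j, 0) * (F j * F j) := by rw [← h1]; noncomm_ring
        _ = 1 := by rw [(hs.site _).z_sq, hF2, one_mul]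
    -- operators
    have hop : ∀ b : B, star b = b → b * b = 1 →
        star ((Ψ b : LG G) : ell2 G →L[ℂ] ell2 G) * ((Ψ b : LG G) : ell2 G →L[ℂ] ell2 G) = 1 ∧
        ((Ψ b : LG G) : ell2 G →L[ℂ] ell2 G) * star ((Ψ b : LG G) : ell2 G →L[ℂ] ell2 G) = 1 := by
      intro b hb1 hb2
      have e1 : star ((Ψ b : LG G) : ell2 G →L[ℂ] ell2 G) = ((Ψ b : LG G) : ell2 G →L[ℂ] ell2 G) := by
        have : star (Ψ b) = Ψ b := by rw [← map_star, hb1]
        exact congrArg Subtype.val this
      have e2 : ((Ψ b : LG G) : ell2 G →L[ℂ] ell2 G) * ((Ψ b : LG G) : ell2 G →L[ℂ] ell2 G) = 1 := by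
        have : Ψ b * Ψ b = 1 := by rw [← map_mul, hb2, map_one]
        exact congrArg Subtype.val this
      rw [e1]
      exact ⟨e2, e2⟩
    refine no_conj (X := fun j => (Ψ (x j) : ell2 G →L[ℂ] ell2 G))
      (Y := fun j => (Ψ (z (j, 0)) : ell2 G →L[ℂ] ell2 G)) (v := (v : ell2 G →L[ℂ] ell2 G))
      (fun j => (Ψ (x j)).2) (fun j => (Ψ (z (j, 0))).2) v.2
      (fun j => (hop _ (hxs j) (hxx j)).1) (fun j => (hop _ (hs.site _).star_z (hs.site _).z_sq).1)
      (fun j => (hop _ (hs.site _).star_z (hs.site _).z_sq).2)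
      (congrArg Subtype.val hv1) (fun j => congrArg Subtype.val (hv2 j))
      (fun j => 1 / ((j:ℝ) + 1)) tendsto_one_div_add_atTop_nhds_zero_nat ?_
    intro j g g'
    -- the inner product
    have hXn : ‖((Ψ (x j) : LG G) : ell2 G →L[ℂ] ell2 G) (dl g)‖ = 1 := by
      rw [norm_unitary_apply (hop _ (hxs j) (hxx j)).1, norm_dl]
    have e1 : leftReg g' (y j) = leftReg g' (y j - trunc (y j) (S j)) +
        ∑ k ∈ S j, y j k • dl (g' * k) := by
      rw [map_sub, trunc, map_sum]
      have : ∑ k ∈ S j, leftReg g' (y j k • dl k) = ∑ k ∈ S j, y j k • dl (g' * k) := by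
        apply Finset.sum_congr rfl
        intro k _
        rw [map_smul, leftReg_dl]
      rw [this]; abel
    change ‖(inner ℂ (leftReg g' (y j)) (((Ψ (x j) : LG G) : ell2 G →L[ℂ] ell2 G) (dl g)) : ℂ)‖ ≤ _
    rw [e1, inner_add_left, sum_inner]
    have b1 : ‖(inner ℂ (leftReg g' (y j - trunc (y j) (S j)))
        (((Ψ (x j) : LG G) : ell2 G →L[ℂ] ell2 G) (dl g)) : ℂ)‖ ≤ 1 / (2 * ((j:ℝ) + 1)) := by
      refine (norm_inner_le_norm _ _).trans ?_
      rw [hXn, mul_one, norm_leftReg]
      exact (hS j).le
    have b2 : ‖∑ k ∈ S j, (inner ℂ (y j k • dl (g' * k))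
        (((Ψ (x j) : LG G) : ell2 G →L[ℂ] ell2 G) (dl g)) : ℂ)‖ ≤ M j * δ j := by
      refine (norm_sum_le _ _).trans ?_
      rw [hM]
      simp only
      rw [Finset.sum_mul]
      apply Finset.sum_le_sum
      intro k _
      rw [inner_smul_left, norm_mul, RCLike.norm_conj]
      apply mul_le_mul_of_nonneg_left _ (norm_nonneg _)
      rw [inner_dl_left, apply_dl (Ψ (x j)).2, rightReg_apply]
      exact hF4 j _
    have b3 : M j * δ j ≤ 1 / (2 * ((j:ℝ) + 1)) := by
      have h0 := hM0 j
      have hj : (0:ℝ) < (j:ℝ) + 1 := by positivity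
      rw [hδ]
      simp only
      rw [mul_one_div, div_le_div_iff₀ (by positivity) (by positivity)]
      nlinarith
    have b4 : 1 / (2 * ((j:ℝ) + 1)) + 1 / (2 * ((j:ℝ) + 1)) = 1 / ((j:ℝ) + 1) := by
      have hj : (0:ℝ) < (j:ℝ) + 1 := by positivity
      field_simp
      norm_num
    refine (norm_add_le _ _).trans ?_
    linarith

end Pool.Agent.H53.Ultra
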