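import Mathlib

set_option autoImplicit false

open scoped ComplexOrder ENNReal
open Filter Topology

namespace Pool.Agent.H53.Ultra

universe u v

section Factor

variable {H : Type u} [NormedAddCommGroup H] [InnerProductSpace ℂ H] [CompleteSpace H]

/-- A von Neumann algebra is a factor when its centre consists of the scalar operators. -/
def IsFactor (N : VonNeumannAlgebra H) : Prop :=
  ∀ x ∈ N, (∀ y ∈ N, x * y = y * x) → ∃ c : ℂ, x = c • (1 : H →L[ℂ] H)

/-- A faithful tracial state on a von Neumann algebra `N`: a linear functional `τ` with `τ 1 = 1`,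
`τ x ≥ 0` for every positive operator `x ∈ N`, with equality only for `x = 0`, and
`τ (x y) = τ (y x)`. -/
structure FaithfulTracialState (N : VonNeumannAlgebra H) where
  /-- the functional -/
  toFun : N.toStarSubalgebra →ₗ[ℂ] ℂ
  map_one : toFun 1 = 1
  nonneg : ∀ x : N.toStarSubalgebra, (x : H →L[ℂ] H).IsPositive → 0 ≤ toFun x
  faithful : ∀ x : N.toStarSubalgebra, (x : H →L[ℂ] H).IsPositive → toFun x = 0 → x = 0
  tracial : ∀ x y : N.toStarSubalgebra, toFun (x * y) = toFun (y * x)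

/-- The *-algebra `ℓ^∞(ℕ, N)` of norm-bounded sequences in `N`, with pointwise operations. -/
def boundedSeq (N : VonNeumannAlgebra H) : StarSubalgebra ℂ (ℕ → N.toStarSubalgebra) where
  carrier := {x | ∃ C : ℝ, ∀ n, ‖(x n : H →L[ℂ] H)‖ ≤ C}
  mul_mem' := by
    rintro x y ⟨C, hC⟩ ⟨D, hD⟩
    refine ⟨C * D, fun n => ?_⟩
    have h1 : ‖(x n : H →L[ℂ] H) * (y n : H →L[ℂ] H)‖ ≤ C * D :=
      (norm_mul_le _ _).trans (mul_le_mul (hC n) (hD n) (norm_nonneg _)
        ((norm_nonneg _).trans (hC n)))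
    simpa using h1
  add_mem' := by
    rintro x y ⟨C, hC⟩ ⟨D, hD⟩
    refine ⟨C + D, fun n => ?_⟩
    have h1 : ‖(x n : H →L[ℂ] H) + (y n : H →L[ℂ] H)‖ ≤ C + D :=
      (norm_add_le _ _).trans (add_le_add (hC n) (hD n))
    simpa using h1
  algebraMap_mem' := by
    intro r
    refine ⟨‖(algebraMap ℂ (H →L[ℂ] H) r)‖, fun n => ?_⟩
    exact le_refl _
  star_mem' := by
    rintro x ⟨C, hC⟩
    refine ⟨C, fun n => ?_⟩
    have h1 : ‖star (x n : H →L[ℂ] H)‖ ≤ C := by rw [norm_star]; exact hC n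
    exact h1

namespace FaithfulTracialState

variable {N : VonNeumannAlgebra H} (τ : FaithfulTracialState N)

lemma isPositive_star_mul (x : N.toStarSubalgebra) :
    ((star x * x : N.toStarSubalgebra) : H →L[ℂ] H).IsPositive := by
  have : ((star x * x : N.toStarSubalgebra) : H →L[ℂ] H) =
      ContinuousLinearMap.adjoint (x : H →L[ℂ] H) ∘L (x : H →L[ℂ] H) := rfl
  rw [this]
  exact ContinuousLinearMap.isPositive_adjoint_comp_self _

lemma nonneg' (x : N.toStarSubalgebra) : 0 ≤ τ.toFun (star x * x) :=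
  τ.nonneg _ (isPositive_star_mul x)

/-- the square of the 2-norm -/
noncomputable def nsq (x : N.toStarSubalgebra) : ℝ := (τ.toFun (star x * x)).re

lemma nsq_nonneg (x : N.toStarSubalgebra) : 0 ≤ τ.nsq x :=
  (Complex.le_def.mp (τ.nonneg' x)).1

lemma coe_nsq (x : N.toStarSubalgebra) : ((τ.nsq x : ℝ) : ℂ) = τ.toFun (star x * x) := by
  apply Complex.ext
  · rfl
  · simpa using (Complex.le_def.mp (τ.nonneg' x)).2

lemma re_mono (x y : N.toStarSubalgebra)
    (h : ((y - x : N.toStarSubalgebra) : H →L[ℂ] H).IsPositive) :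
    (τ.toFun x).re ≤ (τ.toFun y).re := by
  have := (Complex.le_def.mp (τ.nonneg _ h)).1
  rw [map_sub] at this
  simpa using this

lemma nsq_add_le (x y : N.toStarSubalgebra) : τ.nsq (x + y) ≤ 2 * τ.nsq x + 2 * τ.nsq y := by
  have h1 : τ.nsq (x + y) + τ.nsq (x - y) = 2 * τ.nsq x + 2 * τ.nsq y := by
    unfold nsq
    have : star (x + y) * (x + y) + star (x - y) * (x - y) =
        (2:ℂ) • (star x * x) + (2:ℂ) • (star y * y) := by
      rw [star_add, star_sub, two_smul, two_smul]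
      noncomm_ring
    have h2 := congrArg (fun t => (τ.toFun t).re) this
    simp only [map_add, map_smul, Complex.add_re, smul_eq_mul, Complex.mul_re] at h2
    simpa using h2
  have := τ.nsq_nonneg (x - y)
  linarith

lemma nsq_star (x : N.toStarSubalgebra) : τ.nsq (star x) = τ.nsq x := by
  unfold nsq
  rw [star_star, τ.tracial]

lemma nsq_neg (x : N.toStarSubalgebra) : τ.nsq (-x) = τ.nsq x := by
  unfold nsq
  simp

lemma nsq_zero : τ.nsq 0 = 0 := by
  unfold nsq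
  simp

lemma nsq_mul_le (a x : N.toStarSubalgebra) :
    τ.nsq (a * x) ≤ ‖(a : H →L[ℂ] H)‖ ^ 2 * τ.nsq x := by
  unfold nsq
  have h : (τ.toFun (star (a * x) * (a * x))).re ≤
      (τ.toFun (((‖(a : H →L[ℂ] H)‖ ^ 2 : ℝ) : ℂ) • (star x * x))).re := by
    apply τ.re_mono
    have e : ((((‖(a : H →L[ℂ] H)‖ ^ 2 : ℝ) : ℂ) • (star x * x) - star (a * x) * (a * x) :
        N.toStarSubalgebra) : H →L[ℂ] H) =
        ((‖(a : H →L[ℂ] H)‖ ^ 2 : ℝ) : ℂ) • (ContinuousLinearMap.adjoint (x : H →L[ℂ] H) ∘L (x : H →L[ℂ] H))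
          - ContinuousLinearMap.adjoint ((a : H →L[ℂ] H) ∘L (x : H →L[ℂ] H)) ∘L
            ((a : H →L[ℂ] H) ∘L (x : H →L[ℂ] H)) := rfl
    rw [e, ContinuousLinearMap.isPositive_iff_complex]
    intro v
    have h1 : inner ℂ ((((‖(a : H →L[ℂ] H)‖ ^ 2 : ℝ) : ℂ) • (ContinuousLinearMap.adjoint (x : H →L[ℂ] H) ∘L (x : H →L[ℂ] H))
          - ContinuousLinearMap.adjoint ((a : H →L[ℂ] H) ∘L (x : H →L[ℂ] H)) ∘L
            ((a : H →L[ℂ] H) ∘L (x : H →L[ℂ] H))) v) v =
        ((‖(a : H →L[ℂ] H)‖ ^ 2 * ‖(x : H →L[ℂ] H) v‖ ^ 2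
          - ‖(a : H →L[ℂ] H) ((x : H →L[ℂ] H) v)‖ ^ 2 : ℝ) : ℂ) := by
      simp only [_root_.sub_apply, _root_.smul_apply,
        ContinuousLinearMap.comp_apply, inner_sub_left, inner_smul_left,
        ContinuousLinearMap.adjoint_inner_left]
      rw [inner_self_eq_norm_sq_to_K]
      rw [inner_self_eq_norm_sq_to_K, Complex.conj_ofReal]
      push_cast
      rfl
    have h2 : ‖(a : H →L[ℂ] H) ((x : H →L[ℂ] H) v)‖ ≤ ‖(a : H →L[ℂ] H)‖ * ‖(x : H →L[ℂ] H) v‖ :=
      ContinuousLinearMap.le_opNorm _ _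
    have h3 : ‖(a : H →L[ℂ] H) ((x : H →L[ℂ] H) v)‖ ^ 2 ≤
        ‖(a : H →L[ℂ] H)‖ ^ 2 * ‖(x : H →L[ℂ] H) v‖ ^ 2 := by
      rw [← mul_pow]
      exact pow_le_pow_left₀ (norm_nonneg _) h2 2
    rw [h1, RCLike.re_eq_complex_re, Complex.ofReal_re]
    exact ⟨rfl, by linarith⟩
  refine h.trans (le_of_eq ?_)
  rw [map_smul, smul_eq_mul, Complex.re_ofReal_mul]

lemma nsq_mul_le' (x a : N.toStarSubalgebra) :
    τ.nsq (x * a) ≤ ‖(a : H →L[ℂ] H)‖ ^ 2 * τ.nsq x := by
  rw [← τ.nsq_star (x * a), star_mul, ← τ.nsq_star x]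
  have h := τ.nsq_mul_le (star a) (star x)
  have e : ‖((star a : N.toStarSubalgebra) : H →L[ℂ] H)‖ = ‖(a : H →L[ℂ] H)‖ :=
    norm_star (a : H →L[ℂ] H)
  rw [e] at h
  exact h

end FaithfulTracialState

end Factor

end Pool.Agent.H53.Ultra
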