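import Mathlib

set_option autoImplicit false

open scoped ENNReal
open Filter Topology

namespace Pool.Agent.H53.Ultra

universe v

variable {G : Type v}

/-- The Hilbert space `ℓ²(G)`. -/
noncomputable abbrev ell2 (G : Type v) := lp (fun _ : G => ℂ) 2

lemma memlp_comp (e : G ≃ G) (f : ell2 G) : Memℓp (fun h => f (e.symm h)) 2 := by
  have hf := lp.memℓp f
  rw [memℓp_gen_iff (by norm_num)] at hf ⊢
  exact (e.symm.summable_iff (f := fun i => ‖f i‖ ^ (2:ℝ≥0∞).toReal)).mpr hf

/-- The unitary operator on `ℓ²(G)` given by a permutation `e` of `G`: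
`(permOp e f) h = f (e⁻¹ h)`, so that `δ_h` is sent to `δ_{e h}`. -/
noncomputable def permOp (e : G ≃ G) : ell2 G →L[ℂ] ell2 G :=
  LinearMap.mkContinuous
    { toFun := fun f => (⟨fun h => f (e.symm h), memlp_comp e f⟩ : ell2 G)
      map_add' := fun f g => by ext h; rfl
      map_smul' := fun c f => by ext h; rfl } 1 (by
    intro f
    rw [one_mul]
    apply le_of_eq
    have h2 : (0:ℝ) < (2:ℝ≥0∞).toReal := by norm_num
    rw [lp.norm_eq_tsum_rpow h2, lp.norm_eq_tsum_rpow h2]
    congr 1
    exact e.symm.tsum_eq (fun i => ‖f i‖ ^ (2:ℝ≥0∞).toReal))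

@[simp] lemma permOp_apply (e : G ≃ G) (f : ell2 G) (h : G) : permOp e f h = f (e.symm h) := rfl

lemma permOp_mul (e e' : G ≃ G) : permOp e * permOp e' = permOp (e'.trans e) := by
  ext f h
  simp

lemma permOp_refl : permOp (Equiv.refl G) = (1 : ell2 G →L[ℂ] ell2 G) := by
  ext f h
  simp

lemma inner_permOp (e : G ≃ G) (f f' : ell2 G) :
    inner ℂ (permOp e f) f' = inner ℂ f (permOp e.symm f') := by
  rw [lp.inner_eq_tsum, lp.inner_eq_tsum]
  simp only [permOp_apply, Equiv.symm_symm]
  exact (e.tsum_eq (fun i => inner ℂ (f (e.symm i)) (f' i))).symm.trans (by simp)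

lemma star_permOp (e : G ≃ G) : star (permOp e) = permOp e.symm := by
  rw [ContinuousLinearMap.star_eq_adjoint]
  symm
  rw [ContinuousLinearMap.eq_adjoint_iff]
  intro x y
  rw [inner_permOp, Equiv.symm_symm]

variable [Group G]

/-- The left regular representation `λ_g δ_h = δ_{g h}`. -/
noncomputable def leftReg (g : G) : ell2 G →L[ℂ] ell2 G := permOp (Equiv.mulLeft g)

/-- The right regular representation `ρ_g δ_h = δ_{h g⁻¹}`. -/
noncomputable def rightReg (g : G) : ell2 G →L[ℂ] ell2 G := permOp (Equiv.mulRight g⁻¹)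

/-- The group von Neumann algebra `L(G)`: the von Neumann algebra on `ℓ²(G)` generated by the left
regular representation, i.e. the double commutant of `{λ_g : g ∈ G}`. -/
noncomputable def groupVN (G : Type v) [Group G] : VonNeumannAlgebra (ell2 G) where
  toStarSubalgebra := StarSubalgebra.centralizer ℂ
    (StarSubalgebra.centralizer ℂ (Set.range (leftReg (G := G))) : Set (ell2 G →L[ℂ] ell2 G))
  centralizer_centralizer' := by
    simp

lemma leftReg_mem (g : G) : leftReg g ∈ (groupVN G).toStarSubalgebra := by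
  change leftReg g ∈ StarSubalgebra.centralizer ℂ
    (StarSubalgebra.centralizer ℂ (Set.range (leftReg (G := G))) : Set (ell2 G →L[ℂ] ell2 G))
  rw [StarSubalgebra.mem_centralizer_iff]
  intro y hy
  have hy' := (StarSubalgebra.mem_centralizer_iff (R := ℂ)).mp hy
  have h1 := hy' (leftReg g) ⟨g, rfl⟩
  refine ⟨h1.1.symm, ?_⟩
  have := congrArg star h1.2
  simpa using this

lemma leftReg_rightReg (g h : G) : leftReg g * rightReg h = rightReg h * leftReg g := by
  unfold leftReg rightReg
  rw [permOp_mul, permOp_mul]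
  congr 1
  ext k
  simp [mul_assoc]

lemma star_leftReg (g : G) : star (leftReg g) = leftReg g⁻¹ := by
  unfold leftReg
  rw [star_permOp]
  congr 1
  ext k
  simp

lemma star_rightReg (g : G) : star (rightReg g) = rightReg g⁻¹ := by
  unfold rightReg
  rw [star_permOp]
  congr 1
  simp

lemma commute_rightReg {T : ell2 G →L[ℂ] ell2 G} (hT : T ∈ (groupVN G).toStarSubalgebra) (h : G) :
    rightReg h * T = T * rightReg h := by
  have hT' : T ∈ StarSubalgebra.centralizer ℂ
    (StarSubalgebra.centralizer ℂ (Set.range (leftReg (G := G))) : Set (ell2 G →L[ℂ] ell2 G)) := hT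
  rw [StarSubalgebra.mem_centralizer_iff] at hT'
  refine (hT' (rightReg h) ?_).1
  rw [SetLike.mem_coe, StarSubalgebra.mem_centralizer_iff]
  rintro _ ⟨g, rfl⟩
  exact ⟨leftReg_rightReg g h, by rw [star_leftReg]; exact leftReg_rightReg _ h⟩

/-- the basis vector -/
noncomputable def dl (g : G) : ell2 G := by
  classical
  exact lp.single 2 g (1:ℂ)

end Pool.Agent.H53.Ultra
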