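import Pool.Agent.H53.Ultra.Group

set_option autoImplicit false

open scoped ENNReal ComplexConjugate
open Filter Topology

namespace Pool.Agent.H53.Ultra

universe v

variable {G : Type v}

lemma dl_eq [DecidableEq G] (g : G) : dl g = lp.single 2 g (1:ℂ) := by
  unfold dl
  congr
  exact Subsingleton.elim _ _

lemma dl_apply_self (g : G) : (dl g : ell2 G) g = 1 := by
  classical
  rw [dl_eq]
  exact lp.single_apply_self 2 g 1

lemma dl_apply_ne {g h : G} (hgh : h ≠ g) : (dl g : ell2 G) h = 0 := by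
  classical
  rw [dl_eq]
  exact lp.single_apply_ne 2 g 1 hgh

lemma inner_dl_left (g : G) (f : ell2 G) : inner ℂ (dl g) f = f g := by
  classical
  rw [dl_eq, lp.inner_single_left]
  simp

lemma inner_dl_right (g : G) (f : ell2 G) : inner ℂ f (dl g) = conj (f g) := by
  rw [← inner_conj_symm, inner_dl_left]

lemma norm_dl (g : G) : ‖(dl g : ell2 G)‖ = 1 := by
  classical
  rw [dl_eq]
  have := lp.norm_single (E := fun _ : G => ℂ) (p := 2) (by norm_num) g (1:ℂ)
  simpa using this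

lemma permOp_dl (e : G ≃ G) (g : G) : permOp e (dl g) = dl (e g) := by
  ext h
  rw [permOp_apply]
  by_cases hh : h = e g
  · subst hh
    rw [dl_apply_self, Equiv.symm_apply_apply, dl_apply_self]
  · rw [dl_apply_ne hh, dl_apply_ne]
    intro hcon
    apply hh
    rw [← hcon, Equiv.apply_symm_apply]

lemma norm_permOp (e : G ≃ G) (f : ell2 G) : ‖permOp e f‖ = ‖f‖ := by
  have h : ‖permOp e f‖ ^ 2 = ‖f‖ ^ 2 := by
    have h1 : (inner ℂ (permOp e f) (permOp e f) : ℂ) = inner ℂ f f := by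
      rw [inner_permOp]
      congr 1
      ext k
      simp
    rw [inner_self_eq_norm_sq_to_K, inner_self_eq_norm_sq_to_K] at h1
    exact_mod_cast h1
  exact (sq_eq_sq₀ (norm_nonneg _) (norm_nonneg _)).mp h

/-- finite-support truncation of a vector -/
noncomputable def trunc (f : ell2 G) (F : Finset G) : ell2 G := ∑ g ∈ F, f g • dl g

lemma exists_trunc (f : ell2 G) (ε : ℝ) (hε : 0 < ε) : ∃ F : Finset G, ‖f - trunc f F‖ < ε := by
  classical
  have h := lp.hasSum_single (E := fun _ : G => ℂ) (p := 2) (by norm_num) f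
  have e : (fun i : G => lp.single 2 i (f i)) = fun i : G => (f i • dl i : ell2 G) := by
    funext i
    rw [dl_eq]
    ext k
    by_cases hk : k = i
    · subst hk
      simp
    · simp [hk]
  rw [e] at h
  have h2 := Metric.tendsto_atTop.mp h ε hε
  obtain ⟨F, hF⟩ := h2
  refine ⟨F, ?_⟩
  have := hF F (le_refl _)
  rw [dist_eq_norm, norm_sub_rev] at this
  exact this

variable [Group G]

lemma leftReg_dl (g h : G) : leftReg g (dl h) = dl (g * h) := permOp_dl _ _

lemma rightReg_dl (g h : G) : rightReg g (dl h) = dl (h * g⁻¹) := permOp_dl _ _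

lemma leftReg_apply (g : G) (f : ell2 G) (h : G) : leftReg g f h = f (g⁻¹ * h) := rfl

lemma rightReg_apply (g : G) (f : ell2 G) (h : G) : rightReg g f h = f (h * g) := by
  unfold rightReg
  simp

lemma norm_leftReg (g : G) (f : ell2 G) : ‖leftReg g f‖ = ‖f‖ := norm_permOp _ _

/-- `L(G)` as a star subalgebra -/
noncomputable abbrev LG (G : Type v) [Group G] : StarSubalgebra ℂ (ell2 G →L[ℂ] ell2 G) :=
  (groupVN G).toStarSubalgebra

lemma apply_dl {T : ell2 G →L[ℂ] ell2 G} (hT : T ∈ LG G) (g : G) :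
    T (dl g) = rightReg g⁻¹ (T (dl 1)) := by
  have h := commute_rightReg hT g⁻¹
  have h2 := congrArg (fun S => S (dl (1:G))) h
  simp only [mul_apply_eq_comp] at h2
  rw [h2, rightReg_dl]
  simp

lemma star_coeff {T : ell2 G →L[ℂ] ell2 G} (hT : T ∈ LG G) (g : G) :
    (star T (dl 1)) g = conj ((T (dl 1)) g⁻¹) := by
  rw [← inner_dl_left, ContinuousLinearMap.star_eq_adjoint,
    ContinuousLinearMap.adjoint_inner_right, apply_dl hT, inner_dl_right, rightReg_apply]
  simp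

lemma trace_comm {T S : ell2 G →L[ℂ] ell2 G} (hT : T ∈ LG G) (hS : S ∈ LG G) :
    inner ℂ (dl 1) ((T * S) (dl 1)) = (inner ℂ (dl 1) ((S * T) (dl 1)) : ℂ) := by
  have key : ∀ {T S : ell2 G →L[ℂ] ell2 G}, T ∈ LG G → S ∈ LG G →
      inner ℂ (dl 1) ((T * S) (dl 1)) = ∑' g, (T (dl 1)) g⁻¹ * (S (dl 1)) g := by
    intro T S hT hS
    rw [mul_apply_eq_comp, ← ContinuousLinearMap.adjoint_inner_left,
      ← ContinuousLinearMap.star_eq_adjoint, lp.inner_eq_tsum]
    congr 1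
    ext g
    rw [star_coeff hT]
    simp [mul_comm]
  rw [key hT hS, key hS hT]
  rw [← (Equiv.inv G).tsum_eq]
  congr 1
  ext g
  simp [mul_comm]

lemma norm_mul_unitary {D Y : ell2 G →L[ℂ] ell2 G} (hD : D ∈ LG G) (hY : Y ∈ LG G)
    (hYY : Y * star Y = 1) : ‖(D * Y) (dl 1)‖ = ‖D (dl 1)‖ := by
  have h : ‖(D * Y) (dl 1)‖ ^ 2 = ‖D (dl 1)‖ ^ 2 := by
    have h1 : (inner ℂ ((D * Y) (dl 1)) ((D * Y) (dl 1)) : ℂ) =
        inner ℂ (D (dl 1)) (D (dl 1)) := by
      rw [← ContinuousLinearMap.adjoint_inner_right, ← ContinuousLinearMap.star_eq_adjoint,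
        ← ContinuousLinearMap.adjoint_inner_right D, ← ContinuousLinearMap.star_eq_adjoint,
        ← mul_apply_eq_comp, ← mul_apply_eq_comp]
      rw [star_mul, mul_assoc, trace_comm (star_mem hY) (mul_mem (star_mem hD) (mul_mem hD hY))]
      rw [mul_assoc, mul_assoc, hYY, mul_one]
    rw [inner_self_eq_norm_sq_to_K, inner_self_eq_norm_sq_to_K] at h1
    exact_mod_cast h1
  exact (sq_eq_sq₀ (norm_nonneg _) (norm_nonneg _)).mp h

lemma norm_unitary_apply {K : Type*} [NormedAddCommGroup K] [InnerProductSpace ℂ K]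
    [CompleteSpace K] {v : K →L[ℂ] K} (hv : star v * v = 1) (x : K) : ‖v x‖ = ‖x‖ := by
  have h : ‖v x‖ ^ 2 = ‖x‖ ^ 2 := by
    have h1 : (inner ℂ (v x) (v x) : ℂ) = inner ℂ x x := by
      rw [← ContinuousLinearMap.adjoint_inner_right, ← ContinuousLinearMap.star_eq_adjoint,
        ← mul_apply_eq_comp, hv]
      rfl
    rw [inner_self_eq_norm_sq_to_K, inner_self_eq_norm_sq_to_K] at h1
    exact_mod_cast h1
  exact (sq_eq_sq₀ (norm_nonneg _) (norm_nonneg _)).mp h

/-- The core contradiction: a unitary of `L(G)` cannot conjugate `Y j` to `X j` for all `j` if the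
two-sided matrix coefficients of the pair `(X j, Y j)` tend to zero uniformly. -/
theorem no_conj {X Y : ℕ → (ell2 G →L[ℂ] ell2 G)} {v : ell2 G →L[ℂ] ell2 G}
    (hX : ∀ j, X j ∈ LG G) (hY : ∀ j, Y j ∈ LG G) (hv : v ∈ LG G)
    (hXs : ∀ j, star (X j) * X j = 1) (hYs : ∀ j, star (Y j) * Y j = 1)
    (hYs' : ∀ j, Y j * star (Y j) = 1) (hvs : star v * v = 1)
    (hconj : ∀ j, v * Y j = X j * v) (η : ℕ → ℝ) (hη : Tendsto η atTop (𝓝 0))
    (hsmall : ∀ j g g', ‖(inner ℂ (leftReg g' (Y j (dl 1))) (X j (dl g)) : ℂ)‖ ≤ η j) :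
    False := by
  obtain ⟨F, hF⟩ := exists_trunc (v (dl 1)) (1/4) (by norm_num)
  set ξ := v (dl 1) with hξ
  have hξn : ‖ξ‖ = 1 := by rw [hξ, norm_unitary_apply hvs, norm_dl]
  set V₀ : ell2 G →L[ℂ] ell2 G := ∑ g ∈ F, ξ g • leftReg g with hV₀
  have hV₀mem : V₀ ∈ LG G := by
    rw [hV₀]
    exact sum_mem fun g _ => (LG G).toSubalgebra.smul_mem (leftReg_mem g) _
  have hV₀dl : V₀ (dl 1) = trunc ξ F := by
    rw [hV₀, trunc, _root_.sum_apply]
    apply Finset.sum_congr rfl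
    intro g _
    rw [_root_.smul_apply, leftReg_dl, mul_one]
  set D := v - V₀ with hD
  have hDmem : D ∈ LG G := sub_mem hv hV₀mem
  have hDn : ‖D (dl 1)‖ < 1/4 := by
    rw [hD, _root_.sub_apply, hV₀dl]; exact hF
  have hξ₀n : ‖trunc ξ F‖ ≤ 1 + 1/4 := by
    have h1 : trunc ξ F = ξ - (ξ - trunc ξ F) := by abel
    rw [h1]
    refine (norm_sub_le _ _).trans ?_
    rw [hξn]
    linarith
  have main : ∀ j, 7/16 ≤ (∑ g ∈ F, ‖ξ g‖)^2 * η j := by
    intro j
    have e1 : (1:ℂ) = inner ℂ ((v * Y j) (dl 1)) (X j (v (dl 1))) := by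
      have : X j (v (dl 1)) = (v * Y j) (dl 1) := by rw [hconj]; rfl
      rw [this, inner_self_eq_norm_sq_to_K, mul_apply_eq_comp,
        norm_unitary_apply hvs, norm_unitary_apply (hYs j), norm_dl]
      simp
    have e2 : (inner ℂ ((v * Y j) (dl 1)) (X j (v (dl 1))) : ℂ) =
        inner ℂ ((D * Y j) (dl 1)) (X j ξ) + inner ℂ ((V₀ * Y j) (dl 1)) (X j (D (dl 1)))
          + inner ℂ ((V₀ * Y j) (dl 1)) (X j (trunc ξ F)) := by
      have a1 : (v * Y j) (dl 1) = (D * Y j) (dl 1) + (V₀ * Y j) (dl 1) := by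
        rw [hD, sub_mul, _root_.sub_apply]; abel
      have a2 : X j ξ = X j (D (dl 1)) + X j (trunc ξ F) := by
        rw [← map_add, hD, _root_.sub_apply, hV₀dl]; congr 1; abel
      rw [← hξ]
      rw [a1, inner_add_left, add_assoc]
      congr 1
      rw [← inner_add_right, a2]
    have b1 : ‖(inner ℂ ((D * Y j) (dl 1)) (X j ξ) : ℂ)‖ ≤ 1/4 := by
      refine (norm_inner_le_norm _ _).trans ?_
      rw [norm_mul_unitary hDmem (hY j) (hYs' j), norm_unitary_apply (hXs j), hξn, mul_one]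
      exact hDn.le
    have b2 : ‖(inner ℂ ((V₀ * Y j) (dl 1)) (X j (D (dl 1))) : ℂ)‖ ≤ 5/16 := by
      refine (norm_inner_le_norm _ _).trans ?_
      rw [norm_mul_unitary hV₀mem (hY j) (hYs' j), norm_unitary_apply (hXs j), hV₀dl]
      calc ‖trunc ξ F‖ * ‖D (dl 1)‖ ≤ (1 + 1/4) * (1/4) :=
            mul_le_mul hξ₀n hDn.le (norm_nonneg _) (by norm_num)
        _ = 5/16 := by norm_num
    have b3 : ‖(inner ℂ ((V₀ * Y j) (dl 1)) (X j (trunc ξ F)) : ℂ)‖ ≤
        (∑ g ∈ F, ‖ξ g‖)^2 * η j := by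
      have c1 : (V₀ * Y j) (dl 1) = ∑ g' ∈ F, ξ g' • leftReg g' (Y j (dl 1)) := by
        rw [mul_apply_eq_comp, hV₀, _root_.sum_apply]
        rfl
      have c2 : X j (trunc ξ F) = ∑ g ∈ F, ξ g • X j (dl g) := by
        rw [trunc, map_sum]
        apply Finset.sum_congr rfl
        intro g _
        rw [map_smul]
      rw [c1, c2, sum_inner]
      refine (norm_sum_le _ _).trans ?_
      rw [sq, Finset.sum_mul, Finset.sum_mul]
      apply Finset.sum_le_sum
      intro g' _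
      rw [inner_sum]
      refine (norm_sum_le _ _).trans ?_
      rw [Finset.mul_sum, Finset.sum_mul]
      apply Finset.sum_le_sum
      intro g _
      rw [inner_smul_left, inner_smul_right, norm_mul, norm_mul, RCLike.norm_conj, ← mul_assoc]
      exact mul_le_mul_of_nonneg_left (hsmall j g g') (by positivity)
    have h1 : (1:ℝ) ≤ 1/4 + 5/16 + (∑ g ∈ F, ‖ξ g‖)^2 * η j := by
      have e3 : (1:ℝ) = ‖(inner ℂ ((D * Y j) (dl 1)) (X j ξ) + inner ℂ ((V₀ * Y j) (dl 1)) (X j (D (dl 1)))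
          + inner ℂ ((V₀ * Y j) (dl 1)) (X j (trunc ξ F)) : ℂ)‖ := by
        rw [← e2, ← e1]; simp
      have e4 := norm_add₃_le (a := (inner ℂ ((D * Y j) (dl 1)) (X j ξ) : ℂ))
        (b := (inner ℂ ((V₀ * Y j) (dl 1)) (X j (D (dl 1))) : ℂ))
        (c := (inner ℂ ((V₀ * Y j) (dl 1)) (X j (trunc ξ F)) : ℂ))
      rw [← e3] at e4
      linarith
    linarith
  have hlim : Tendsto (fun j => (∑ g ∈ F, ‖ξ g‖)^2 * η j) atTop (𝓝 ((∑ g ∈ F, ‖ξ g‖)^2 * 0)) :=
    hη.const_mul _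
  rw [mul_zero] at hlim
  have := ge_of_tendsto' hlim main
  linarith

end Pool.Agent.H53.Ultra
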