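import Mathlib

set_option autoImplicit false

open Filter Topology

namespace Pool.Agent.H53.UltraStatement

universe u v w

variable {H : Type u} [NormedAddCommGroup H] [InnerProductSpace ℂ H] [CompleteSpace H]
variable {K : Type w} [NormedAddCommGroup K] [InnerProductSpace ℂ K] [CompleteSpace K]

/-- A von Neumann algebra is a factor when its centre consists of the scalar operators. -/
def IsFactor (N : VonNeumannAlgebra H) : Prop :=
  ∀ x ∈ N, (∀ y ∈ N, x * y = y * x) → ∃ c : ℂ, x = c • (1 : H →L[ℂ] H)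

/-- `N` is infinite-dimensional: it contains an infinite linearly independent sequence. -/
def IsInfDim (N : VonNeumannAlgebra H) : Prop :=
  ∃ x : ℕ → (H →L[ℂ] H), (∀ n, x n ∈ N) ∧ LinearIndependent ℂ x

/-- `τ` is a faithful tracial state on `N` (only the values of `τ` on `N` matter): it is linear on
`N`, `τ 1 = 1`, `τ x` is real and nonnegative for every positive operator `x` of `N`, and is zero
only if `x = 0`, and `τ (x y) = τ (y x)`. Normality is not required. -/
structure IsFaithfulTrace (N : VonNeumannAlgebra H) (τ : (H →L[ℂ] H) → ℂ) : Prop where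
  add : ∀ x ∈ N, ∀ y ∈ N, τ (x + y) = τ x + τ y
  smul : ∀ c : ℂ, ∀ x ∈ N, τ (c • x) = c * τ x
  one : τ 1 = 1
  pos : ∀ x ∈ N, x.IsPositive → 0 ≤ (τ x).re ∧ (τ x).im = 0
  faithful : ∀ x ∈ N, x.IsPositive → τ x = 0 → x = 0
  tracial : ∀ x ∈ N, ∀ y ∈ N, τ (x * y) = τ (y * x)

/-- The norm-bounded sequences in `N`, that is, the underlying set of `ℓ^∞(ℕ, N)`. -/
def BddSeq (N : VonNeumannAlgebra H) : Set (ℕ → (H →L[ℂ] H)) :=
  {x | (∀ n, x n ∈ N) ∧ ∃ C : ℝ, ∀ n, ‖x n‖ ≤ C}

/-- Equality of the classes of two bounded sequences in the tracial ultrapower `N^U`: the limit of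
`τ ((x_n - y_n)^* (x_n - y_n))` along `U` is `0`. -/
def UEq (τ : (H →L[ℂ] H) → ℂ) (U : Ultrafilter ℕ) (x y : ℕ → (H →L[ℂ] H)) : Prop :=
  Tendsto (fun n => τ (star (x n - y n) * (x n - y n))) (U : Filter ℕ) (𝓝 0)

/-- `Φ` is (a lift to bounded sequences of) a unital *-homomorphism from the tracial ultrapower
`N^U = ℓ^∞(ℕ, N) / {x : lim_U τ (x_n^* x_n) = 0}` to the set `L` of operators on `K`: it takes
values in `L`, takes equal values on sequences with the same class in `N^U`, and preserves `1`,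
sums, scalar multiples, products and adjoints. -/
structure IsUltrapowerHom (N : VonNeumannAlgebra H) (τ : (H →L[ℂ] H) → ℂ) (U : Ultrafilter ℕ)
    (L : Set (K →L[ℂ] K)) (Φ : (ℕ → (H →L[ℂ] H)) → (K →L[ℂ] K)) : Prop where
  mem : ∀ x ∈ BddSeq N, Φ x ∈ L
  well : ∀ x ∈ BddSeq N, ∀ y ∈ BddSeq N, UEq τ U x y → Φ x = Φ y
  one : Φ (fun _ => 1) = 1
  add : ∀ x ∈ BddSeq N, ∀ y ∈ BddSeq N, Φ (fun n => x n + y n) = Φ x + Φ y
  smul : ∀ c : ℂ, ∀ x ∈ BddSeq N, Φ (fun n => c • x n) = c • Φ x
  mul : ∀ x ∈ BddSeq N, ∀ y ∈ BddSeq N, Φ (fun n => x n * y n) = Φ x * Φ y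
  adj : ∀ x ∈ BddSeq N, Φ (fun n => star (x n)) = star (Φ x)

/-- The group von Neumann algebra `L(G)`, the double commutant of the left regular representation
`lam : G → B(K)`, where `K` is `ℓ²(G)` with its standard basis; as a set of operators on `K`. -/
def groupAlg {G : Type v} (lam : G → (K →L[ℂ] K)) : Set (K →L[ℂ] K) :=
  (Set.range lam).centralizer.centralizer

end Pool.Agent.H53.UltraStatement
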