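import Pool.Agent.H53.Ultra.VN4
import Pool.Agent.H53.Ultra.Core
import Pool.Agent.H53.Ultra.Statement

set_option autoImplicit false

open Filter Topology
open scoped ComplexOrder

namespace Pool.Agent.H53.Ultra

universe u v w

open Pool.Agent.H53.UltraStatement (IsFaithfulTrace IsInfDim BddSeq UEq IsUltrapowerHom groupAlg)

variable {H : Type u} [NormedAddCommGroup H] [InnerProductSpace ℂ H] [CompleteSpace H]
variable {K : Type w} [NormedAddCommGroup K] [InnerProductSpace ℂ K] [CompleteSpace K]

/-- bundled version of a faithful trace -/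
noncomputable def bundle {N : VonNeumannAlgebra H} {τ : (H →L[ℂ] H) → ℂ}
    (h : IsFaithfulTrace N τ) : FaithfulTracialState N where
  toFun :=
    { toFun := fun x => τ x.1
      map_add' := fun x y => h.add _ x.2 _ y.2
      map_smul' := fun c x => h.smul c _ x.2 }
  map_one := h.one
  nonneg := fun x hx => by
    have := h.pos x.1 x.2 hx
    exact Complex.le_def.mpr ⟨this.1, this.2.symm⟩
  faithful := fun x hx h0 => Subtype.ext (h.faithful x.1 x.2 hx h0)
  tracial := fun x y => h.tracial _ x.2 _ y.2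

lemma not_finiteDimensional {N : VonNeumannAlgebra H} (h : IsInfDim N) :
    ¬ FiniteDimensional ℂ N.toStarSubalgebra := by
  intro hfd
  obtain ⟨x, hx, hli⟩ := h
  let y : ℕ → N.toStarSubalgebra := fun n => ⟨x n, hx n⟩
  let f : N.toStarSubalgebra →ₗ[ℂ] (H →L[ℂ] H) := N.toStarSubalgebra.toSubalgebra.val.toLinearMap
  have hy : LinearIndependent ℂ y := by
    apply LinearIndependent.of_comp f
    exact hli
  have := hy.finite
  exact not_finite ℕ

lemma conj_mem_groupVN {G : Type v} [Group G] (b : HilbertBasis G ℂ K) {lam : G → (K →L[ℂ] K)}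
    (hlam : ∀ g h, lam g (b h) = b (g * h)) {x : K →L[ℂ] K} (hx : x ∈ groupAlg lam) :
    b.repr.conjStarAlgEquiv x ∈ (groupVN G).toStarSubalgebra := by
  classical
  have hl : ∀ g, b.repr.conjStarAlgEquiv (lam g) = leftReg g := by
    intro g
    have hd : (Submodule.span ℂ (Set.range (b : G → K))).topologicalClosure = ⊤ := b.dense_span
    have h1 : b.repr.conjStarAlgEquiv.symm (leftReg g) = lam g := by
      apply ContinuousLinearMap.ext_on (s := Set.range (b : G → K))
      · rw [dense_iff_closure_eq, ← Submodule.topologicalClosure_coe, hd]; rfl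
      · rintro _ ⟨h, rfl⟩
        rw [LinearIsometryEquiv.symm_conjStarAlgEquiv_apply_apply, hlam, b.repr_self]
        rw [LinearIsometryEquiv.symm_apply_eq, b.repr_self]
        apply lp.ext
        funext k
        unfold leftReg
        rw [permOp_apply, lp.single_apply, lp.single_apply]
        simp only [Equiv.mulLeft_symm, Equiv.coe_mulLeft]
        by_cases hk : g⁻¹ * k = h
        · have : k = g * h := by rw [← hk]; group
          subst this
          rw [hk]
          simp
        · have : k ≠ g * h := by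
            intro h'; apply hk; rw [h']; group
          rw [Pi.single_eq_of_ne hk, Pi.single_eq_of_ne this]
    rw [← h1]
    exact StarAlgEquiv.apply_symm_apply _ _
  change b.repr.conjStarAlgEquiv x ∈ StarSubalgebra.centralizer ℂ
    (StarSubalgebra.centralizer ℂ (Set.range (leftReg (G := G))) : Set (ell2 G →L[ℂ] ell2 G))
  rw [StarSubalgebra.mem_centralizer_iff]
  have key : ∀ y ∈ StarSubalgebra.centralizer ℂ (Set.range (leftReg (G := G))),
      y * b.repr.conjStarAlgEquiv x = b.repr.conjStarAlgEquiv x * y := by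
    intro y hy
    have hy' := (StarSubalgebra.mem_centralizer_iff (R := ℂ)).mp hy
    have h1 : b.repr.conjStarAlgEquiv.symm y ∈ (Set.range lam).centralizer := by
      rw [Set.mem_centralizer_iff]
      rintro _ ⟨g, rfl⟩
      apply EquivLike.injective b.repr.conjStarAlgEquiv
      rw [map_mul, map_mul, StarAlgEquiv.apply_symm_apply, hl]
      exact (hy' _ ⟨g, rfl⟩).1
    have h2 := hx _ h1
    have h3 := congrArg b.repr.conjStarAlgEquiv h2
    rw [map_mul, map_mul, StarAlgEquiv.apply_symm_apply] at h3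
    exact h3
  intro y hy
  exact ⟨key y hy, key _ (star_mem hy)⟩

lemma norm_le_one_of_unitary {V : H →L[ℂ] H} (h : star V * V = 1) : ‖V‖ ≤ 1 := by
  apply ContinuousLinearMap.opNorm_le_bound _ zero_le_one
  intro x
  rw [norm_unitary_apply h, one_mul]

/-- The tracial ultrapower of an infinite-dimensional factor with a faithful tracial state has no
unital *-homomorphism to a group von Neumann algebra. -/
theorem no_ultrapower_hom (N : VonNeumannAlgebra H) (hN : UltraStatement.IsFactor N)
    (hinf : IsInfDim N) (τ : (H →L[ℂ] H) → ℂ) (hτ : IsFaithfulTrace N τ)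
    (U : Ultrafilter ℕ) (hU : ∀ n : ℕ, U ≠ pure n) {G : Type v} [Group G]
    (b : HilbertBasis G ℂ K) (lam : G → (K →L[ℂ] K)) (hlam : ∀ g h, lam g (b h) = b (g * h)) :
    ¬ ∃ Φ : (ℕ → (H →L[ℂ] H)) → (K →L[ℂ] K), IsUltrapowerHom N τ U (groupAlg lam) Φ := by
  rintro ⟨Φ, hΦ⟩
  obtain ⟨z₀, s₀, h⟩ := (good_of_trace hN (not_finiteDimensional hinf) (bundle hτ)).exists_sites
  let e : ℕ × ℕ ≃ ℕ := Nat.pairEquiv
  have hs : IsSites (fun x => z₀ (e x)) (fun x => s₀ (e x)) :=
    ⟨fun k => h.site _, fun k l hkl => h.zz _ _ (fun he => hkl (e.injective he)),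
      fun k l hkl => h.zs _ _ (fun he => hkl (e.injective he)),
      fun k l hkl => h.ss _ _ (fun he => hkl (e.injective he))⟩
  set z : ℕ × ℕ → N.toStarSubalgebra := fun x => z₀ (e x) with hz
  have hconst : ∀ x : N.toStarSubalgebra, (fun _ : ℕ => (x : H →L[ℂ] H)) ∈ BddSeq N := fun x =>
    ⟨fun _ => x.2, ‖(x : H →L[ℂ] H)‖, fun _ => le_refl _⟩
  let C := b.repr.conjStarAlgEquiv
  have hC : ∀ x ∈ BddSeq N, C (Φ x) ∈ (groupVN G).toStarSubalgebra := fun x hx =>
    conj_mem_groupVN b hlam (hΦ.mem x hx)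
  let Ψ : N.toStarSubalgebra →⋆ₐ[ℂ] LG G :=
    { toFun := fun x => ⟨C (Φ (fun _ => x.1)), hC _ (hconst x)⟩
      map_one' := by
        apply Subtype.ext
        change C (Φ (fun _ => 1)) = 1
        rw [hΦ.one, map_one]
      map_mul' := fun x y => by
        apply Subtype.ext
        change C (Φ (fun _ => x.1 * y.1)) = C (Φ fun _ => x.1) * C (Φ fun _ => y.1)
        rw [← map_mul, ← hΦ.mul _ (hconst x) _ (hconst y)]
      map_zero' := by
        apply Subtype.ext
        change C (Φ (fun _ => 0)) = 0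
        have h1 := hΦ.smul 0 _ (hconst 0)
        simp only [zero_smul] at h1
        rw [h1, map_zero]
      map_add' := fun x y => by
        apply Subtype.ext
        change C (Φ (fun _ => x.1 + y.1)) = C (Φ fun _ => x.1) + C (Φ fun _ => y.1)
        rw [← map_add, ← hΦ.add _ (hconst x) _ (hconst y)]
      commutes' := fun r => by
        apply Subtype.ext
        change C (Φ (fun _ => ((algebraMap ℂ N.toStarSubalgebra r : N.toStarSubalgebra) :
          H →L[ℂ] H))) = algebraMap ℂ (ell2 G →L[ℂ] ell2 G) r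
        have h1 := hΦ.smul r _ (hconst 1)
        have h2 : ((algebraMap ℂ N.toStarSubalgebra r : N.toStarSubalgebra) : H →L[ℂ] H) =
            r • ((1 : N.toStarSubalgebra) : H →L[ℂ] H) := by
          rw [Algebra.algebraMap_eq_smul_one]; rfl
        rw [h2, h1]
        have h3 : Φ (fun _ => ((1 : N.toStarSubalgebra) : H →L[ℂ] H)) = 1 := hΦ.one
        rw [h3, map_smul, map_one, Algebra.algebraMap_eq_smul_one]
      map_star' := fun x => by
        apply Subtype.ext
        change C (Φ (fun _ => star x.1)) = star (C (Φ fun _ => x.1))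
        rw [← map_star, ← hΦ.adj _ (hconst x)] }
  obtain ⟨x, V, hV, hconj, hno⟩ := exists_unconj Ψ hs
  apply hno
  have hVb : (fun n => (V n : H →L[ℂ] H)) ∈ BddSeq N := by
    refine ⟨fun n => (V n).2, 1, fun n => ?_⟩
    apply norm_le_one_of_unitary
    exact congrArg Subtype.val (hV n).1
  have hVb' : (fun n => star (V n : H →L[ℂ] H)) ∈ BddSeq N :=
    ⟨fun n => star_mem (V n).2, hVb.2.choose, fun n => by
      rw [norm_star]; exact hVb.2.choose_spec n⟩
  refine ⟨⟨C (Φ fun n => (V n : H →L[ℂ] H)), hC _ hVb⟩, ?_, ?_⟩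
  · apply Subtype.ext
    change star (C (Φ fun n => (V n : H →L[ℂ] H))) * C (Φ fun n => (V n : H →L[ℂ] H)) = 1
    rw [← map_star, ← map_mul, ← hΦ.adj _ hVb, ← hΦ.mul _ hVb' _ hVb]
    have h1 : (fun n => star (V n : H →L[ℂ] H) * (V n : H →L[ℂ] H)) = fun _ => 1 := by
      funext n
      exact congrArg Subtype.val (hV n).1
    rw [h1, hΦ.one, map_one]
  · intro j
    apply Subtype.ext
    change C (Φ fun n => (V n : H →L[ℂ] H)) * C (Φ fun _ => (z (j, 0)).1) =
      C (Φ fun _ => (x j).1) * C (Φ fun n => (V n : H →L[ℂ] H))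
    rw [← map_mul, ← map_mul, ← hΦ.mul _ hVb _ (hconst _), ← hΦ.mul _ (hconst _) _ hVb]
    congr 1
    have hb1 : (fun n => (V n : H →L[ℂ] H) * (z (j, 0)).1) ∈ BddSeq N := by
      refine ⟨fun n => mul_mem (V n).2 (z (j, 0)).2, hVb.2.choose * ‖(z (j, 0)).1‖, fun n => ?_⟩
      exact (norm_mul_le _ _).trans
        (mul_le_mul_of_nonneg_right (hVb.2.choose_spec n) (norm_nonneg _))
    have hb2 : (fun n => (x j).1 * (V n : H →L[ℂ] H)) ∈ BddSeq N := by
      refine ⟨fun n => mul_mem (x j).2 (V n).2, ‖(x j).1‖ * hVb.2.choose, fun n => ?_⟩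
      exact (norm_mul_le _ _).trans
        (mul_le_mul_of_nonneg_left (hVb.2.choose_spec n) (norm_nonneg _))
    apply hΦ.well _ hb1 _ hb2
    unfold UEq
    have hcof : (U : Filter ℕ) ≤ cofinite := by
      rcases U.le_cofinite_or_eq_pure with h | ⟨a, ha⟩
      · exact h
      · exact absurd ha (hU a)
    have hev : ∀ᶠ n in (U : Filter ℕ), j < n := by
      apply hcof
      rw [Nat.cofinite_eq_atTop]
      exact eventually_gt_atTop j
    apply Tendsto.congr' _ tendsto_const_nhds
    filter_upwards [hev] with n hn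
    have e1 : (V n : H →L[ℂ] H) * (z (j, 0)).1 - (x j).1 * (V n : H →L[ℂ] H) = 0 := by
      rw [sub_eq_zero]
      exact congrArg Subtype.val (hconj j n hn)
    rw [e1, mul_zero]
    have h0 := hτ.smul 0 _ (one_mem N)
    rw [zero_smul, zero_mul] at h0
    exact h0.symm

end Pool.Agent.H53.Ultra
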