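import Pool.Agent.H53.Ultra.GroupLemmas

set_option autoImplicit false

open scoped ENNReal ComplexConjugate
open Filter Topology

namespace Pool.Agent.H53.Ultra

universe v

section Moments

variable {ι : Type*} [DecidableEq ι]

/-- sign attached to a subset -/
def sg (T : Finset ι) (i : ι) : ℂ := if i ∈ T then 1 else -1

lemma sg_sq (T : Finset ι) (i : ι) : sg T i * sg T i = 1 := by
  unfold sg; split_ifs <;> simp

lemma star_sg (T : Finset ι) (i : ι) : star (sg T i) = sg T i := by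
  unfold sg; split_ifs <;> simp

lemma norm_sg (T : Finset ι) (i : ι) : ‖sg T i‖ = 1 := by
  unfold sg; split_ifs <;> simp

lemma parallelogram_two (x b : ℂ) : ‖x + b‖ ^ 2 + ‖x - b‖ ^ 2 = 2 * ‖x‖ ^ 2 + 2 * ‖b‖ ^ 2 := by
  have := parallelogram_law_with_norm ℝ x b
  nlinarith [this]

lemma four_ineq (x b : ℂ) : ‖x + b‖ ^ 4 + ‖x - b‖ ^ 4 ≤
    2 * ‖x‖ ^ 4 + 12 * (‖x‖ ^ 2 * ‖b‖ ^ 2) + 2 * ‖b‖ ^ 4 := by
  have h1 := Complex.sq_norm (x + b)
  have h2 := Complex.sq_norm (x - b)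
  have h3 := Complex.sq_norm x
  have h4 := Complex.sq_norm b
  have e : ∀ t : ℝ, t ^ 4 = (t ^ 2) ^ 2 := fun t => by ring
  rw [e, e, e, e, h1, h2, h3, h4]
  simp only [Complex.normSq_apply, Complex.add_re, Complex.add_im, Complex.sub_re, Complex.sub_im]
  nlinarith [sq_nonneg (x.re * b.im - x.im * b.re)]

lemma sum_insert_sg (s : Finset ι) (i : ι) (hi : i ∉ s) (b : ι → ℂ) (T : Finset ι)
    (hT : T ⊆ s) : ∑ j ∈ insert i s, sg T j * b j = ∑ j ∈ s, sg T j * b j - b i ∧
      ∑ j ∈ insert i s, sg (insert i T) j * b j = ∑ j ∈ s, sg T j * b j + b i := by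
  have hiT : i ∉ T := fun h => hi (hT h)
  constructor
  · rw [Finset.sum_insert hi]
    have : sg T i = -1 := by unfold sg; rw [if_neg hiT]
    rw [this]; ring
  · rw [Finset.sum_insert hi]
    have : sg (insert i T) i = 1 := by unfold sg; rw [if_pos (Finset.mem_insert_self _ _)]
    rw [this, one_mul, add_comm]
    congr 1
    apply Finset.sum_congr rfl
    intro j hj
    have hij : j ≠ i := fun h => hi (h ▸ hj)
    have : sg (insert i T) j = sg T j := by
      unfold sg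
      simp [Finset.mem_insert, hij]
    rw [this]

lemma second_moment (s : Finset ι) (b : ι → ℂ) :
    ∑ T ∈ s.powerset, ‖∑ j ∈ s, sg T j * b j‖ ^ 2 = 2 ^ s.card * ∑ j ∈ s, ‖b j‖ ^ 2 := by
  induction s using Finset.induction_on with
  | empty => simp
  | insert i s hi ih =>
    rw [Finset.sum_powerset_insert hi, Finset.sum_insert hi, Finset.card_insert_of_notMem hi]
    have h1 : ∑ T ∈ s.powerset, ‖∑ j ∈ insert i s, sg T j * b j‖ ^ 2 +
        ∑ T ∈ s.powerset, ‖∑ j ∈ insert i s, sg (insert i T) j * b j‖ ^ 2 =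
        ∑ T ∈ s.powerset, (2 * ‖∑ j ∈ s, sg T j * b j‖ ^ 2 + 2 * ‖b i‖ ^ 2) := by
      rw [← Finset.sum_add_distrib]
      apply Finset.sum_congr rfl
      intro T hT
      obtain ⟨e1, e2⟩ := sum_insert_sg s i hi b T (Finset.mem_powerset.mp hT)
      rw [e1, e2, add_comm]
      exact parallelogram_two _ _
    rw [h1, Finset.sum_add_distrib, ← Finset.mul_sum, ih, Finset.sum_const, Finset.card_powerset]
    rw [nsmul_eq_mul]
    push_cast
    ring

lemma fourth_moment (s : Finset ι) (b : ι → ℂ) :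
    ∑ T ∈ s.powerset, ‖∑ j ∈ s, sg T j * b j‖ ^ 4 ≤
      3 * 2 ^ s.card * (∑ j ∈ s, ‖b j‖ ^ 2) ^ 2 := by
  induction s using Finset.induction_on with
  | empty => simp
  | insert i s hi ih =>
    rw [Finset.sum_powerset_insert hi, Finset.sum_insert hi, Finset.card_insert_of_notMem hi]
    have h1 : ∑ T ∈ s.powerset, ‖∑ j ∈ insert i s, sg T j * b j‖ ^ 4 +
        ∑ T ∈ s.powerset, ‖∑ j ∈ insert i s, sg (insert i T) j * b j‖ ^ 4 ≤
        ∑ T ∈ s.powerset, (2 * ‖∑ j ∈ s, sg T j * b j‖ ^ 4 +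
          12 * (‖∑ j ∈ s, sg T j * b j‖ ^ 2 * ‖b i‖ ^ 2) + 2 * ‖b i‖ ^ 4) := by
      rw [← Finset.sum_add_distrib]
      apply Finset.sum_le_sum
      intro T hT
      obtain ⟨e1, e2⟩ := sum_insert_sg s i hi b T (Finset.mem_powerset.mp hT)
      rw [e1, e2, add_comm]
      exact four_ineq _ _
    refine h1.trans ?_
    rw [Finset.sum_add_distrib, Finset.sum_add_distrib, ← Finset.mul_sum, ← Finset.mul_sum,
      ← Finset.sum_mul, second_moment, Finset.sum_const, Finset.card_powerset, nsmul_eq_mul]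
    push_cast
    set S := ∑ j ∈ s, ‖b j‖ ^ 2 with hS
    have hS0 : 0 ≤ S := Finset.sum_nonneg fun j _ => by positivity
    have h2 : (0:ℝ) < 2 ^ s.card := by positivity
    have e : 3 * 2 ^ (s.card + 1) * (‖b i‖ ^ 2 + S) ^ 2 =
        2 * (3 * 2 ^ s.card * S ^ 2) + 12 * (2 ^ s.card * S * ‖b i‖ ^ 2)
          + 2 ^ s.card * (6 * ‖b i‖ ^ 4) := by ring
    rw [e]
    have h3 : 2 ^ s.card * (2 * ‖b i‖ ^ 4) ≤ 2 ^ s.card * (6 * ‖b i‖ ^ 4) := by
      apply mul_le_mul_of_nonneg_left _ h2.le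
      nlinarith [pow_nonneg (norm_nonneg (b i)) 4]
    linarith

end Moments

variable {G : Type v}

/-- Among the sign combinations of `n` orthogonal vectors of square norm `1/n` in `ℓ²(G)`, some one
has all its coefficients at most `(3/n)^(1/4)` in absolute value. -/
theorem exists_small_height {ι : Type*} [Fintype ι] [DecidableEq ι] [Nonempty ι]
    (f : ι → ell2 G) (hortho : ∀ i j, i ≠ j → (inner ℂ (f i) (f j) : ℂ) = 0)
    (hnorm : ∀ i, ‖f i‖ ^ 2 = 1 / (Fintype.card ι : ℝ)) :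
    ∃ T : Finset ι, ∀ g : G, ‖∑ i, sg T i * (f i) g‖ ^ 4 ≤ 3 / (Fintype.card ι : ℝ) := by
  classical
  by_contra hcon
  push Not at hcon
  choose gT hgT using hcon
  set n : ℝ := (Fintype.card ι : ℝ) with hn
  have hn0 : 0 < n := by
    rw [hn]; exact_mod_cast Fintype.card_pos
  set F : Finset G := (Finset.univ : Finset ι).powerset.image gT with hF
  set S : G → ℝ := fun g => ∑ i, ‖(f i) g‖ ^ 2 with hS
  have hS0 : ∀ g, 0 ≤ S g := fun g => Finset.sum_nonneg fun i _ => by positivity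
  -- Bessel
  have hS1 : ∀ g, S g ≤ 1 / n := by
    intro g
    have hon : Orthonormal ℂ (fun i => ((Real.sqrt n : ℝ) : ℂ) • f i) := by
      constructor
      · intro i
        rw [norm_smul, Complex.norm_real, Real.norm_eq_abs, abs_of_nonneg (Real.sqrt_nonneg _)]
        have h1 : (Real.sqrt n * ‖f i‖) ^ 2 = 1 := by
          rw [mul_pow, Real.sq_sqrt hn0.le, hnorm]; field_simp
        have h2 : 0 ≤ Real.sqrt n * ‖f i‖ := by positivity
        nlinarith [sq_nonneg (Real.sqrt n * ‖f i‖ - 1)]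
      · intro i j hij
        rw [inner_smul_left, inner_smul_right, hortho i j hij]
        simp
    have hb := hon.sum_inner_products_le (x := dl g) (s := Finset.univ)
    rw [norm_dl] at hb
    have e : ∀ i, ‖(inner ℂ (((Real.sqrt n : ℝ) : ℂ) • f i) (dl g) : ℂ)‖ ^ 2 = n * ‖(f i) g‖ ^ 2 := by
      intro i
      rw [inner_smul_left, inner_dl_right, norm_mul, RCLike.norm_conj, RCLike.norm_conj,
        Complex.norm_real, Real.norm_eq_abs, abs_of_nonneg (Real.sqrt_nonneg _), mul_pow,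
        Real.sq_sqrt hn0.le]
    simp_rw [e] at hb
    rw [← Finset.mul_sum] at hb
    rw [le_div_iff₀ hn0, mul_comm]
    simpa using hb
  have hS2 : ∑ g ∈ F, S g ≤ 1 := by
    rw [hS]
    simp only
    rw [Finset.sum_comm]
    have h1 : ∀ i, ∑ g ∈ F, ‖(f i) g‖ ^ 2 ≤ ‖f i‖ ^ 2 := by
      intro i
      have := lp.sum_rpow_le_norm_rpow (E := fun _ : G => ℂ) (p := 2) (by norm_num) (f i) F
      simpa using this
    calc ∑ i, ∑ g ∈ F, ‖(f i) g‖ ^ 2 ≤ ∑ i : ι, ‖f i‖ ^ 2 := Finset.sum_le_sum fun i _ => h1 i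
      _ = ∑ i : ι, 1 / n := Finset.sum_congr rfl fun i _ => hnorm i
      _ = 1 := by
        rw [Finset.sum_const, Finset.card_univ, nsmul_eq_mul, ← hn]; field_simp
  have hupper : ∑ T ∈ (Finset.univ : Finset ι).powerset, ∑ g ∈ F, ‖∑ i, sg T i * (f i) g‖ ^ 4 ≤
      2 ^ (Fintype.card ι) * (3 / n) := by
    rw [Finset.sum_comm]
    have h1 : ∀ g ∈ F, ∑ T ∈ (Finset.univ : Finset ι).powerset, ‖∑ i, sg T i * (f i) g‖ ^ 4 ≤
        3 * 2 ^ (Fintype.card ι) * (1 / n) * S g := by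
      intro g _
      refine (fourth_moment Finset.univ (fun i => (f i) g)).trans ?_
      rw [Finset.card_univ, sq, ← mul_assoc]
      change 3 * 2 ^ (Fintype.card ι) * S g * S g ≤ _
      apply mul_le_mul_of_nonneg_right _ (hS0 g)
      apply mul_le_mul_of_nonneg_left (hS1 g) (by positivity)
    refine (Finset.sum_le_sum h1).trans ?_
    rw [← Finset.mul_sum]
    calc 3 * 2 ^ (Fintype.card ι) * (1 / n) * ∑ g ∈ F, S g
        ≤ 3 * 2 ^ (Fintype.card ι) * (1 / n) * 1 := by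
          apply mul_le_mul_of_nonneg_left hS2 (by positivity)
      _ = 2 ^ (Fintype.card ι) * (3 / n) := by ring
  have hlower : 2 ^ (Fintype.card ι) * (3 / n) <
      ∑ T ∈ (Finset.univ : Finset ι).powerset, ∑ g ∈ F, ‖∑ i, sg T i * (f i) g‖ ^ 4 := by
    have h1 : ∑ T ∈ (Finset.univ : Finset ι).powerset, (3 / n) <
        ∑ T ∈ (Finset.univ : Finset ι).powerset, ∑ g ∈ F, ‖∑ i, sg T i * (f i) g‖ ^ 4 := by
      apply Finset.sum_lt_sum_of_nonempty
      · exact ⟨∅, by simp⟩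
      · intro T hT
        refine lt_of_lt_of_le (hgT T) ?_
        apply Finset.single_le_sum (f := fun g => ‖∑ i, sg T i * (f i) g‖ ^ 4)
        · intro g _; positivity
        · rw [hF]; exact Finset.mem_image_of_mem _ hT
    rw [Finset.sum_const, Finset.card_powerset, Finset.card_univ, nsmul_eq_mul] at h1
    push_cast at h1
    exact h1
  linarith

end Pool.Agent.H53.Ultra
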