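import Pool.Agent.H53.Ultra.Defs

set_option autoImplicit false

open Filter Topology

namespace Pool.Agent.H53.Ultra

universe u

variable {H : Type u} [NormedAddCommGroup H] [InnerProductSpace ℂ H] [CompleteSpace H]

/-- membership in a von Neumann algebra through the commutant -/
lemma mem_of_commute {M : VonNeumannAlgebra H} {x : H →L[ℂ] H}
    (h : ∀ y ∈ M.commutant, y * x = x * y) : x ∈ M := by
  rw [← VonNeumannAlgebra.commutant_commutant M, VonNeumannAlgebra.mem_commutant_iff]
  exact h

lemma commute_of_mem {M : VonNeumannAlgebra H} {x y : H →L[ℂ] H} (hx : x ∈ M)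
    (hy : y ∈ M.commutant) : x * y = y * x :=
  (VonNeumannAlgebra.mem_commutant_iff.mp hy) x hx

lemma smul_mem' {M : VonNeumannAlgebra H} {x : H →L[ℂ] H} (c : ℂ) (hx : x ∈ M) : c • x ∈ M :=
  M.toStarSubalgebra.toSubalgebra.smul_mem hx c

lemma cfc_mem' {M : VonNeumannAlgebra H} {x : H →L[ℂ] H} (hx : x ∈ M) (f : ℝ → ℝ) :
    cfc f x ∈ M := by
  apply mem_of_commute
  intro y hy
  have h : Commute x y := commute_of_mem hx hy
  exact (h.cfc_real f).eq.symm

/-- the projection onto a closed subspace invariant under the commutant is in the algebra -/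
lemma starProjection_mem {M : VonNeumannAlgebra H} (K : Submodule ℂ H) [K.HasOrthogonalProjection]
    (h : ∀ y ∈ M.commutant, ∀ v ∈ K, y v ∈ K) : K.starProjection ∈ M := by
  rw [VonNeumannAlgebra.IsStarProjection.mem_iff isStarProjection_starProjection]
  intro y hy
  rw [Submodule.range_starProjection]
  intro v hv
  exact h y hy v hv

/-- range projection -/
lemma exists_rangeProj {M : VonNeumannAlgebra H} {k : H →L[ℂ] H} (hk : k ∈ M) :
    ∃ q ∈ M, star q = q ∧ q * q = q ∧ q * k = k ∧ ∀ y : H →L[ℂ] H, y * k = 0 → y * q = 0 := by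
  set K : Submodule ℂ H := (LinearMap.range (k : H →ₗ[ℂ] H)).topologicalClosure with hK
  have : CompleteSpace K := (Submodule.isClosed_topologicalClosure _).completeSpace_coe
  have hsp := isStarProjection_starProjection (U := K)
  refine ⟨K.starProjection, ?_, hsp.isSelfAdjoint, hsp.isIdempotentElem, ?_, ?_⟩
  · apply starProjection_mem
    intro y hy v hv
    have hcl : ∀ v ∈ K, y v ∈ K := by
      intro v hv
      have hmaps : Set.MapsTo y (LinearMap.range (k : H →ₗ[ℂ] H) : Set H)
          (LinearMap.range (k : H →ₗ[ℂ] H) : Set H) := by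
        rintro _ ⟨w, rfl⟩
        refine ⟨y w, ?_⟩
        have := commute_of_mem hk hy
        exact congrArg (fun T => T w) this
      have := hmaps.closure y.continuous
      exact this hv
    exact hcl v hv
  · ext v
    rw [mul_apply_eq_comp]
    apply Submodule.starProjection_eq_self_iff.mpr
    exact Submodule.le_topologicalClosure _ ⟨v, rfl⟩
  · intro y hy
    have hker : K ≤ LinearMap.ker (y : H →ₗ[ℂ] H) := by
      apply Submodule.topologicalClosure_minimal
      · rintro _ ⟨w, rfl⟩
        have := congrArg (fun T => T w) hy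
        simpa using this
      · exact y.isClosed_ker
    ext v
    rw [mul_apply_eq_comp]
    have : K.starProjection v ∈ K := by
      rw [Submodule.starProjection_apply]
      exact Submodule.coe_mem _
    have := hker this
    simpa using this

/-- In a factor, `f M e ≠ 0` for nonzero `e, f`. -/
lemma IsFactor.exists_ne {M : VonNeumannAlgebra H} (hM : IsFactor M) {e f : H →L[ℂ] H}
    (he : e ∈ M) (he0 : e ≠ 0) (hf0 : f ≠ 0) : ∃ x ∈ M, f * x * e ≠ 0 := by
  by_contra hcon
  push Not at hcon
  set K₀ : Submodule ℂ H := Submodule.span ℂ {v | ∃ x ∈ M, ∃ w : H, v = x (e w)} with hK₀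
  set K : Submodule ℂ H := K₀.topologicalClosure with hK
  have : CompleteSpace K := (Submodule.isClosed_topologicalClosure _).completeSpace_coe
  have hsp := isStarProjection_starProjection (U := K)
  -- invariance under bounded operators preserving the generating set
  have hinv : ∀ y : H →L[ℂ] H, (∀ x ∈ M, ∀ w : H, y (x (e w)) ∈ K₀) → ∀ v ∈ K, y v ∈ K := by
    intro y hy v hv
    have hmaps : Set.MapsTo y (K₀ : Set H) (K₀ : Set H) := by
      have : K₀ ≤ K₀.comap (y : H →ₗ[ℂ] H) := by
        rw [hK₀, Submodule.span_le]
        rintro _ ⟨x, hx, w, rfl⟩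
        exact hy x hx w
      exact this
    have := hmaps.closure y.continuous
    exact this hv
  have hM1 : ∀ y ∈ M, ∀ v ∈ K, y v ∈ K := by
    intro y hy
    apply hinv
    intro x hx w
    exact Submodule.subset_span ⟨y * x, mul_mem hy hx, w, rfl⟩
  have hM2 : ∀ y ∈ M.commutant, ∀ v ∈ K, y v ∈ K := by
    intro y hy
    apply hinv
    intro x hx w
    refine Submodule.subset_span ⟨x, hx, y w, ?_⟩
    have h1 := commute_of_mem (mul_mem hx he) hy
    exact (congrArg (fun T => T w) h1).symm
  have hmem : K.starProjection ∈ M := starProjection_mem K hM2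
  have hmem' : K.starProjection ∈ M.commutant := by
    apply starProjection_mem
    intro y hy
    rw [VonNeumannAlgebra.commutant_commutant] at hy
    exact hM1 y hy
  obtain ⟨c, hc⟩ := hM _ hmem (fun y hy => (commute_of_mem hy hmem').symm)
  have hsmall : ∀ v ∈ K, f v = 0 := by
    have hker : K ≤ LinearMap.ker (f : H →ₗ[ℂ] H) := by
      apply Submodule.topologicalClosure_minimal
      · rw [hK₀, Submodule.span_le]
        rintro _ ⟨x, hx, w, rfl⟩
        have := congrArg (fun T => T w) (hcon x hx)
        simpa using this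
      · exact f.isClosed_ker
    intro v hv
    simpa using hker hv
  have hid : c • c • (1 : H →L[ℂ] H) = c • 1 := by
    have h1 := hsp.isIdempotentElem
    have h2 : K.starProjection * K.starProjection = K.starProjection := h1
    rw [hc] at h2
    rw [smul_mul_smul_comm, one_mul] at h2
    rw [smul_smul]
    exact h2
  by_cases hc0 : c = 0
  · -- projection is zero, so `e = 0`
    apply he0
    ext w
    have h1 : e w ∈ K := Submodule.le_topologicalClosure _
      (Submodule.subset_span ⟨1, one_mem _, w, rfl⟩)
    have h2 := Submodule.starProjection_eq_self_iff.mpr h1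
    rw [hc, hc0] at h2
    simpa using h2.symm
  · apply hf0
    have h1 : c • (1 : H →L[ℂ] H) = 1 := by
      have := congrArg (fun T => c⁻¹ • T) hid
      simp only [smul_smul, inv_mul_cancel₀ hc0, one_smul] at this
      rwa [← mul_assoc, inv_mul_cancel₀ hc0, one_mul] at this
    ext v
    have h2 : K.starProjection v = v := by rw [hc, h1]; rfl
    have h3 : v ∈ K := Submodule.starProjection_eq_self_iff.mp h2
    simpa using hsmall v h3

/-- Polar decomposition, weak form. -/
lemma exists_partialIsometry {M : VonNeumannAlgebra H} {a : H →L[ℂ] H} (ha : a ∈ M) (ha0 : a ≠ 0) :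
    ∃ w ∈ M, w ≠ 0 ∧ w * star w * w = w ∧
      (∀ e : H →L[ℂ] H, star e = e → a * e = a → w * e = w) ∧
      (∀ f : H →L[ℂ] H, f * a = a → f * w = w) := by
  set h : H →L[ℂ] H := star a * a with hh
  have hhM : h ∈ M := mul_mem (star_mem ha) ha
  have hsa : IsSelfAdjoint h := IsSelfAdjoint.star_mul_self a
  have hnn : 0 ≤ h := star_mul_self_nonneg a
  have hnorm : ‖h‖ = ‖a‖ * ‖a‖ := CStarRing.norm_star_mul_self
  have hpos : 0 < ‖h‖ := by
    rw [hnorm]
    have := norm_pos_iff.mpr ha0
    positivity
  set δ : ℝ := ‖h‖ / 2 with hδ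
  have hδ0 : 0 < δ := by positivity
  set φ : ℝ → ℝ := fun t => max (t - δ) 0 with hφ
  set ψ : ℝ → ℝ := fun t => 1 / Real.sqrt (max t δ) with hψ
  set g : ℝ → ℝ := fun t => max (t - δ) 0 / max t δ with hg
  have hmax : ∀ t : ℝ, 0 < max t δ := fun t => lt_max_of_lt_right hδ0
  have hφc : Continuous φ := by fun_prop
  have hψc : Continuous ψ := by
    apply Continuous.div continuous_const
    · fun_prop
    · intro t; exact (Real.sqrt_pos.mpr (hmax t)).ne'
  have hgc : Continuous g := by
    apply Continuous.div
    · fun_prop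
    · fun_prop
    · intro t; exact (hmax t).ne'
  set k := cfc φ h with hk
  set P := cfc ψ h with hP
  have hkM : k ∈ M := cfc_mem' hhM φ
  have hPM : P ∈ M := cfc_mem' hhM ψ
  have hPs : star P = P := cfc_predicate ψ h
  -- k ≠ 0
  have hk0 : k ≠ 0 := by
    intro hk0
    have h1 : h = cfc (fun t => min t δ) h + k := by
      rw [hk, ← cfc_add (a := h) (fun t => min t δ) φ
        ((continuous_id.min continuous_const).continuousOn) hφc.continuousOn]
      conv_lhs => rw [← cfc_id' ℝ h]
      apply cfc_congr
      intro t _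
      simp only [hφ]
      rcases le_total t δ with h | h
      · rw [min_eq_left h, max_eq_right (by linarith)]; ring
      · rw [min_eq_right h, max_eq_left (by linarith)]; ring
    rw [hk0, add_zero] at h1
    have h2 : ‖h‖ ≤ δ := by
      rw [h1]
      apply norm_cfc_le hδ0.le
      intro t ht
      have ht0 : 0 ≤ t := spectrum_nonneg_of_nonneg hnn ht
      rw [Real.norm_eq_abs, abs_of_nonneg (le_min ht0 hδ0.le)]
      exact min_le_right _ _
    rw [hδ] at h2
    linarith
  -- k = h * g(h)
  have hkg : k = h * cfc g h := by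
    have : h * cfc g h = cfc (fun t => t * g t) h := by
      rw [cfc_mul (fun t => t) g h continuous_id.continuousOn hgc.continuousOn, cfc_id' ℝ h]
    rw [this, hk]
    apply cfc_congr
    intro t _
    simp only [hφ, hg]
    rcases le_total t δ with h | h
    · rw [max_eq_right (by linarith : t - δ ≤ 0)]; simp
    · rw [max_eq_left h]
      have : t ≠ 0 := by linarith
      field_simp
  -- P h P k = k
  have hPk : P * h * P * k = k := by
    have e1 : P * h * P * k = cfc (fun t => ψ t * t * ψ t * φ t) h := by
      rw [cfc_mul (fun t => ψ t * t * ψ t) φ h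
          (((hψc.mul continuous_id).mul hψc).continuousOn) hφc.continuousOn,
        cfc_mul (fun t => ψ t * t) ψ h ((hψc.mul continuous_id).continuousOn) hψc.continuousOn,
        cfc_mul ψ (fun t => t) h hψc.continuousOn continuous_id.continuousOn, cfc_id' ℝ h]
    rw [e1, hk]
    apply cfc_congr
    intro t _
    simp only [hφ, hψ]
    rcases le_total t δ with h | h
    · rw [max_eq_right (by linarith : t - δ ≤ 0)]; simp
    · rw [max_eq_left h]
      have ht : 0 < t := by linarith
      have h1 : Real.sqrt t * Real.sqrt t = t := Real.mul_self_sqrt ht.le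
      have h2 : Real.sqrt t ≠ 0 := (Real.sqrt_pos.mpr ht).ne'
      have h3 : 1 / Real.sqrt t * t * (1 / Real.sqrt t) = 1 := by
        field_simp
        rw [sq]; exact h1.symm
      rw [h3, one_mul]
  obtain ⟨q, hqM, hqs, hqq, hqk, hq⟩ := exists_rangeProj hkM
  have hq0 : q ≠ 0 := by
    intro h0
    rw [h0, zero_mul] at hqk
    exact hk0 hqk.symm
  have hPq : P * h * P * q = q := by
    have h1 : (P * h * P - 1) * k = 0 := by rw [sub_mul, hPk, one_mul, sub_self]
    have h2 := hq _ h1
    rw [sub_mul, one_mul, sub_eq_zero] at h2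
    exact h2
  refine ⟨a * P * q, mul_mem (mul_mem ha hPM) hqM, ?_, ?_, ?_, ?_⟩
  · intro h0
    have h1 : star (a * P * q) * (a * P * q) = q := by
      rw [star_mul, star_mul, hPs, hqs]
      calc q * (P * star a) * (a * P * q) = q * (P * (star a * a) * P * q) := by noncomm_ring
        _ = q := by rw [← hh, hPq, hqq]
    rw [h0, mul_zero] at h1
    exact hq0 h1.symm
  · rw [star_mul, star_mul, hPs, hqs]
    calc a * P * q * (q * (P * star a)) * (a * P * q)
        = a * P * (q * q) * (P * (star a * a) * P * q) := by noncomm_ring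
      _ = a * P * q := by rw [← hh, hPq, hqq, mul_assoc, hqq]
  · intro e hes he
    have hke : (1 - e) * k = 0 := by
      have h1 : e * h = h := by
        have h2 : e * star a = star a := by
          have := congrArg star he
          rwa [star_mul, hes] at this
        rw [hh, ← mul_assoc, h2]
      rw [sub_mul, one_mul, hkg, ← mul_assoc, h1, sub_self]
    have h3 := hq _ hke
    rw [sub_mul, one_mul, sub_eq_zero] at h3
    have h4 : q * e = q := by
      have := congrArg star h3
      rw [star_mul, hes, hqs] at this
      exact this.symm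
    rw [mul_assoc, h4]
  · intro f hf
    rw [← mul_assoc, ← mul_assoc, hf]

end Pool.Agent.H53.Ultra
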