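import Pool.Agent.H53.Ultra.VN

set_option autoImplicit false

open Filter Topology

namespace Pool.Agent.H53.Ultra

universe u

variable {H : Type u} [NormedAddCommGroup H] [InnerProductSpace ℂ H] [CompleteSpace H]

/-- a family of `n` partial isometries with common initial projection `r` and orthogonal ranges -/
def HasCopies (M : VonNeumannAlgebra H) (r : H →L[ℂ] H) (n : ℕ) : Prop :=
  ∃ w : Fin n → (H →L[ℂ] H), (∀ i, w i ∈ M ∧ star (w i) * w i = r) ∧
    ∀ i j, i ≠ j → star (w i) * w j = 0

/-- infinite-dimensional finite factors -/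
structure Good (M : VonNeumannAlgebra H) : Prop where
  factor : IsFactor M
  inf : ∀ F : Finset (H →L[ℂ] H), ¬ ((M : Set (H →L[ℂ] H)) ⊆ Submodule.span ℂ (F : Set (H →L[ℂ] H)))
  fin : ∀ r ∈ M, r ≠ 0 → star r = r → r * r = r → ∃ n₀ : ℕ, ∀ n, HasCopies M r n → n ≤ n₀

lemma star_mul_self_eq_zero' {a : H →L[ℂ] H} (h : star a * a = 0) : a = 0 :=
  CStarRing.star_mul_self_eq_zero_iff a |>.mp h

/-- corners of a good algebra are not scalar -/
lemma Good.corner {M : VonNeumannAlgebra H} (hM : Good M) {r : H →L[ℂ] H} (hr : r ∈ M)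
    (hr0 : r ≠ 0) (hrs : star r = r) (hrr : r * r = r) :
    ∃ x ∈ M, ∀ c : ℂ, r * x * r ≠ c • r := by
  by_contra hcon
  push Not at hcon
  obtain ⟨n₀, hn₀⟩ := hM.fin r hr hr0 hrs hrr
  have h0 : HasCopies M r 0 := ⟨fun i => i.elim0, fun i => i.elim0, fun i => i.elim0⟩
  have hex : ∃ n, HasCopies M r n ∧ ¬ HasCopies M r (n + 1) := by
    by_contra hall
    push Not at hall
    have : ∀ n, HasCopies M r n := by
      intro n
      induction n with
      | zero => exact h0
      | succ n ih => exact hall n ih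
    have := hn₀ (n₀ + 1) (this _)
    omega
  obtain ⟨n, ⟨w, hw, hwo⟩, hn⟩ := hex
  have hwr : ∀ i, w i * r = w i := by
    intro i
    have h1 : star (w i * (1 - r)) * (w i * (1 - r)) = 0 := by
      rw [star_mul, star_sub, star_one, hrs]
      calc (1 - r) * star (w i) * (w i * (1 - r)) = (1 - r) * (star (w i) * w i) * (1 - r) := by
            noncomm_ring
        _ = 0 := by rw [(hw i).2, sub_mul, one_mul, hrr, sub_self, zero_mul]
    have h2 := star_mul_self_eq_zero' h1
    rw [mul_sub, mul_one, sub_eq_zero] at h2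
    exact h2.symm
  have hwr' : ∀ i, r * star (w i) = star (w i) := by
    intro i
    have := congrArg star (hwr i)
    rwa [star_mul, hrs] at this
  set p : H →L[ℂ] H := ∑ i, w i * star (w i) with hp
  have hpM : p ∈ M := by
    rw [hp]
    exact sum_mem fun i _ => mul_mem (hw i).1 (star_mem (hw i).1)
  have hwp : ∀ i, star (w i) * p = star (w i) := by
    intro i
    rw [hp, Finset.mul_sum, Finset.sum_eq_single i]
    · rw [← mul_assoc, (hw i).2, hwr']
    · intro j _ hj
      rw [← mul_assoc, hwo i j (Ne.symm hj), zero_mul]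
    · intro h; exact absurd (Finset.mem_univ _) h
  have hpp : p * p = p := by
    conv_lhs => rw [hp, Finset.sum_mul]
    rw [hp]
    apply Finset.sum_congr rfl
    intro i _
    rw [mul_assoc, ← hp, hwp]
  have hps : star p = p := by
    rw [hp, star_sum]
    apply Finset.sum_congr rfl
    intro i _
    rw [star_mul, star_star]
  have hp1 : p = 1 := by
    by_contra hp1
    have hr' : (1 - p) ≠ 0 := by
      intro h; apply hp1; rw [sub_eq_zero] at h; exact h.symm
    obtain ⟨x, hx, hxne⟩ := hM.factor.exists_ne (e := r) (f := 1 - p) hr hr0 hr'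
    set a := (1 - p) * x * r with ha
    have haM : a ∈ M := mul_mem (mul_mem (sub_mem (one_mem _) hpM) hx) hr
    obtain ⟨c, hc⟩ := hcon (star x * (1 - p) * x) (mul_mem (mul_mem (star_mem hx)
      (sub_mem (one_mem _) hpM)) hx)
    have haa : star a * a = c • r := by
      rw [← hc, ha, star_mul, star_mul, star_sub, star_one, hrs, hps]
      have h1 : (1 - p) * (1 - p) = 1 - p := by
        rw [sub_mul, one_mul, mul_sub, mul_one, hpp]; abel
      calc r * (star x * (1 - p)) * ((1 - p) * x * r)
          = r * (star x * ((1 - p) * (1 - p)) * x) * r := by noncomm_ring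
        _ = _ := by rw [h1]
    have hcne : c ≠ 0 := by
      intro h0
      rw [h0, zero_smul] at haa
      exact hxne (star_mul_self_eq_zero' haa)
    -- c is a positive real
    obtain ⟨ξ, hξ⟩ : ∃ ξ, r ξ ≠ 0 := by
      by_contra hall
      push Not at hall
      apply hr0
      ext v; simpa using hall v
    set η := r ξ with hη
    have hrη : r η = η := by
      have := congrArg (fun T => T ξ) hrr
      simpa using this
    have hηpos : 0 < ‖η‖ := norm_pos_iff.mpr hξ
    have hcre : c = ((‖a η‖ ^ 2 / ‖η‖ ^ 2 : ℝ) : ℂ) := by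
      have h1 : (inner ℂ η ((star a * a) η) : ℂ) = ((‖a η‖ ^ 2 : ℝ) : ℂ) := by
        rw [mul_apply_eq_comp, ContinuousLinearMap.star_eq_adjoint,
          ContinuousLinearMap.adjoint_inner_right, inner_self_eq_norm_sq_to_K]
        push_cast; rfl
      rw [haa, _root_.smul_apply, hrη, inner_smul_right, inner_self_eq_norm_sq_to_K] at h1
      have h2 : ((‖η‖ : ℝ) : ℂ) ≠ 0 := by exact_mod_cast hηpos.ne'
      push_cast at h1 ⊢
      rw [eq_div_iff (pow_ne_zero 2 h2)]
      exact h1
    set t : ℝ := ‖a η‖ ^ 2 / ‖η‖ ^ 2 with ht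
    have ht0 : 0 < t := by
      have h1 : 0 ≤ t := by positivity
      rcases h1.lt_or_eq with h | h
      · exact h
      · exfalso; apply hcne; rw [hcre, ← h]; simp
    apply hn
    refine ⟨Fin.snoc w (((1 / Real.sqrt t : ℝ) : ℂ) • a), ?_, ?_⟩
    · intro i
      refine Fin.lastCases ?_ (fun j => ?_) i
      · rw [Fin.snoc_last]
        refine ⟨smul_mem' _ haM, ?_⟩
        rw [star_smul, smul_mul_smul_comm, haa, smul_smul, hcre]
        have : star (((1 / Real.sqrt t : ℝ) : ℂ)) * (((1 / Real.sqrt t : ℝ) : ℂ)) * (t : ℂ) = 1 := by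
          have h1 : star (((1 / Real.sqrt t : ℝ) : ℂ)) = (((1 / Real.sqrt t : ℝ) : ℂ)) :=
            Complex.conj_ofReal _
          rw [h1]
          have h2 : (1 / Real.sqrt t) * (1 / Real.sqrt t) * t = 1 := by
            have h3 : Real.sqrt t * Real.sqrt t = t := Real.mul_self_sqrt ht0.le
            have h4 : Real.sqrt t ≠ 0 := (Real.sqrt_pos.mpr ht0).ne'
            field_simp
            rw [sq]; exact h3.symm
          exact_mod_cast h2
        rw [this, one_smul]
      · rw [Fin.snoc_castSucc]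
        exact hw j
    · have hwa : ∀ i, star (w i) * a = 0 := by
        intro i
        rw [ha, ← mul_assoc, ← mul_assoc, mul_sub, mul_one, hwp, sub_self, zero_mul, zero_mul]
      intro i j
      refine Fin.lastCases ?_ (fun i => ?_) i
      · refine Fin.lastCases ?_ (fun j => ?_) j
        · intro h; exact absurd rfl h
        · intro _
          rw [Fin.snoc_last, Fin.snoc_castSucc, star_smul, smul_mul_assoc]
          have := congrArg star (hwa j)
          rw [star_mul, star_star, star_zero] at this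
          rw [this, smul_zero]
      · refine Fin.lastCases ?_ (fun j => ?_) j
        · intro _
          rw [Fin.snoc_last, Fin.snoc_castSucc, mul_smul_comm, hwa, smul_zero]
        · intro hij
          rw [Fin.snoc_castSucc, Fin.snoc_castSucc]
          exact hwo i j (fun h => hij (by rw [h]))
  -- M is finite-dimensional
  classical
  apply hM.inf ((Finset.univ : Finset (Fin n × Fin n)).image fun x => w x.1 * star (w x.2))
  intro x hx
  have hx' : x = ∑ i, ∑ j, w i * (star (w i) * x * w j) * star (w j) := by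
    conv_lhs => rw [← one_mul x, ← mul_one (1 * x), ← hp1, hp]
    rw [Finset.sum_mul, Finset.sum_mul]
    apply Finset.sum_congr rfl
    intro i _
    rw [Finset.mul_sum]
    apply Finset.sum_congr rfl
    intro j _
    noncomm_ring
  rw [hx']
  apply Submodule.sum_mem
  intro i _
  apply Submodule.sum_mem
  intro j _
  obtain ⟨c, hc⟩ := hcon (star (w i) * x * w j) (mul_mem (mul_mem (star_mem (hw i).1) hx) (hw j).1)
  have e : star (w i) * x * w j = c • r := by
    rw [← hc]
    calc star (w i) * x * w j = (r * star (w i)) * x * (w j * r) := by rw [hwr', hwr]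
      _ = _ := by noncomm_ring
  rw [e, mul_smul_comm, smul_mul_assoc, hwr]
  apply Submodule.smul_mem
  apply Submodule.subset_span
  rw [Finset.coe_image]
  exact ⟨(i, j), by simp, rfl⟩

/-- A self-adjoint non-scalar element of a corner gives two orthogonal subprojections. -/
lemma exists_two_of_sa {M : VonNeumannAlgebra H} {r a : H →L[ℂ] H} (hr : r ∈ M)
    (hrs : star r = r) (hrr : r * r = r) (ha : a ∈ M) (has : IsSelfAdjoint a) (hra : r * a = a)
    (hne : ∀ c : ℂ, a ≠ c • r) :
    ∃ p₁ ∈ M, ∃ p₂ ∈ M, p₁ ≠ 0 ∧ p₂ ≠ 0 ∧ star p₁ = p₁ ∧ star p₂ = p₂ ∧ p₁ * p₁ = p₁ ∧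
      p₂ * p₂ = p₂ ∧ r * p₁ = p₁ ∧ r * p₂ = p₂ ∧ p₁ * p₂ = 0 := by
  by_cases hsp : ∃ l ∈ spectrum ℝ a, ∃ m ∈ spectrum ℝ a, l ≠ 0 ∧ m ≠ 0 ∧ l ≠ m
  · obtain ⟨l, hl, m, hm, hl0, hm0, hlm⟩ := hsp
    set η : ℝ := |l - m| / 2 with hη
    have hη0 : 0 < η := by
      have : 0 < |l - m| := abs_pos.mpr (sub_ne_zero.mpr hlm)
      positivity
    have hc : ∀ l : ℝ, Continuous (fun t : ℝ => t * max 0 (η - |t - l|)) := fun l => by fun_prop
    have hc1 : ∀ l : ℝ, Continuous (fun t : ℝ => max 0 (η - |t - l|)) := fun l => by fun_prop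
    have hk0 : ∀ l ∈ spectrum ℝ a, l ≠ 0 → cfc (fun t : ℝ => t * max 0 (η - |t - l|)) a ≠ 0 := by
      intro l hl hl0 h0
      have h1 : (spectrum ℝ a).EqOn (fun t : ℝ => t * max 0 (η - |t - l|)) (fun _ => 0) := by
        apply eqOn_of_cfc_eq_cfc _ (hc l).continuousOn continuousOn_const has
        rw [h0, cfc_const_zero]
      have h2 := h1 hl
      simp only [sub_self, abs_zero, sub_zero] at h2
      rw [max_eq_right hη0.le] at h2
      exact (mul_ne_zero hl0 hη0.ne') h2
    have hrk : ∀ l : ℝ, r * cfc (fun t : ℝ => t * max 0 (η - |t - l|)) a =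
        cfc (fun t : ℝ => t * max 0 (η - |t - l|)) a := by
      intro l
      have : cfc (fun t : ℝ => t * max 0 (η - |t - l|)) a =
          a * cfc (fun t : ℝ => max 0 (η - |t - l|)) a := by
        rw [cfc_mul (fun t => t) _ a continuous_id.continuousOn (hc1 l).continuousOn,
          cfc_id' ℝ a]
      rw [this, ← mul_assoc, hra]
    have hmul : cfc (fun t : ℝ => t * max 0 (η - |t - l|)) a *
        cfc (fun t : ℝ => t * max 0 (η - |t - m|)) a = 0 := by
      rw [← cfc_mul _ _ a (hc l).continuousOn (hc m).continuousOn]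
      have : (fun t : ℝ => t * max 0 (η - |t - l|) * (t * max 0 (η - |t - m|))) = fun _ => 0 := by
        funext t
        rcases le_total η |t - l| with h | h
        · rw [max_eq_left (by linarith : η - |t - l| ≤ 0)]; simp
        · have h2 : η ≤ |t - m| := by
            have h3 : |l - m| ≤ |t - l| + |t - m| := by
              have := abs_sub_le l t m
              rw [abs_sub_comm l t] at this
              exact this
            rw [hη] at h ⊢
            linarith
          rw [max_eq_left (by linarith : η - |t - m| ≤ 0)]; simp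
      rw [this, cfc_const_zero]
    set k₁ := cfc (fun t : ℝ => t * max 0 (η - |t - l|)) a with hk₁
    set k₂ := cfc (fun t : ℝ => t * max 0 (η - |t - m|)) a with hk₂
    have hk₁M : k₁ ∈ M := cfc_mem' ha _
    have hk₂M : k₂ ∈ M := cfc_mem' ha _
    have hk₁s : star k₁ = k₁ := (cfc_predicate (fun t : ℝ => t * max 0 (η - |t - l|)) a : IsSelfAdjoint k₁).star_eq
    obtain ⟨p₁, h1M, h1s, h1p, h1k, h1y⟩ := exists_rangeProj hk₁M
    obtain ⟨p₂, h2M, h2s, h2p, h2k, h2y⟩ := exists_rangeProj hk₂M
    refine ⟨p₁, h1M, p₂, h2M, ?_, ?_, h1s, h2s, h1p, h2p, ?_, ?_, ?_⟩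
    · intro h0; rw [h0, zero_mul] at h1k; exact hk0 l hl hl0 h1k.symm
    · intro h0; rw [h0, zero_mul] at h2k; exact hk0 m hm hm0 h2k.symm
    · have : (1 - r) * k₁ = 0 := by rw [sub_mul, one_mul, hk₁, hrk, sub_self]
      have := h1y _ this
      rw [sub_mul, one_mul, sub_eq_zero] at this
      exact this.symm
    · have : (1 - r) * k₂ = 0 := by rw [sub_mul, one_mul, hk₂, hrk, sub_self]
      have := h2y _ this
      rw [sub_mul, one_mul, sub_eq_zero] at this
      exact this.symm
    · have e1 : k₁ * p₂ = 0 := h2y _ hmul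
      have e2 : p₂ * k₁ = 0 := by
        have := congrArg star e1
        rwa [star_mul, h2s, hk₁s, star_zero] at this
      have e3 := h1y _ e2
      have := congrArg star e3
      rwa [star_mul, h1s, h2s, star_zero] at this
  · push Not at hsp
    have ha0 : a ≠ 0 := by
      intro h; apply hne 0; rw [h, zero_smul]
    -- there is a nonzero spectral value
    obtain ⟨l, hl, hl0⟩ : ∃ l ∈ spectrum ℝ a, l ≠ 0 := by
      by_contra hall
      push Not at hall
      apply ha0
      rw [← cfc_id' ℝ a]
      have : cfc (fun t : ℝ => t) a = cfc (fun _ : ℝ => (0:ℝ)) a := by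
        apply cfc_congr
        intro t ht
        exact hall t ht
      rw [this, cfc_const_zero]
    have hval : ∀ t ∈ spectrum ℝ a, t = 0 ∨ t = l := by
      intro t ht
      by_cases ht0 : t = 0
      · exact Or.inl ht0
      · right
        exact hsp t ht l hl ht0 hl0
    set p : H →L[ℂ] H := cfc (fun t : ℝ => t / l) a with hp
    have hc : Continuous (fun t : ℝ => t / l) := by fun_prop
    have hpM : p ∈ M := cfc_mem' ha _
    have hps : star p = p := (cfc_predicate (fun t : ℝ => t / l) a : IsSelfAdjoint p).star_eq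
    have hpp : p * p = p := by
      rw [hp, ← cfc_mul _ _ a hc.continuousOn hc.continuousOn]
      apply cfc_congr
      intro t ht
      rcases hval t ht with h | h
      · simp [h]
      · rw [h]; field_simp
    have hpa : a = (l : ℂ) • p := by
      have h1 : a = cfc (fun t : ℝ => l * (t / l)) a := by
        conv_lhs => rw [← cfc_id' ℝ a]
        apply cfc_congr
        intro t _
        simp only
        field_simp
      rw [h1, cfc_const_mul l (fun t => t / l) a hc.continuousOn]
      rfl
    have hp0 : p ≠ 0 := by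
      intro h; apply ha0; rw [hpa, h, smul_zero]
    have hrp : r * p = p := by
      have h1 : p = a * cfc (fun _ : ℝ => 1 / l) a := by
        have : a * cfc (fun _ : ℝ => 1 / l) a = cfc (fun t : ℝ => t * (1 / l)) a := by
          rw [cfc_mul (fun t => t) _ a continuous_id.continuousOn continuousOn_const, cfc_id' ℝ a]
        rw [this, hp]
        apply cfc_congr
        intro t _
        simp only
        ring
      rw [h1, ← mul_assoc, hra]
    have hpr : p * r = p := by
      have := congrArg star hrp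
      rwa [star_mul, hrs, hps] at this
    refine ⟨p, hpM, r - p, sub_mem hr hpM, hp0, ?_, hps, ?_, hpp, ?_, hrp, ?_, ?_⟩
    · intro h
      rw [sub_eq_zero] at h
      exact hne l (by rw [h]; exact hpa)
    · rw [star_sub, hrs, hps]
    · rw [sub_mul, mul_sub, mul_sub, hrr, hrp, hpr, hpp, sub_self, sub_zero]
    · rw [mul_sub, hrr, hrp]
    · rw [mul_sub, hpr, hpp, sub_self]

lemma Good.exists_two {M : VonNeumannAlgebra H} (hM : Good M) {r : H →L[ℂ] H} (hr : r ∈ M)
    (hr0 : r ≠ 0) (hrs : star r = r) (hrr : r * r = r) :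
    ∃ p₁ ∈ M, ∃ p₂ ∈ M, p₁ ≠ 0 ∧ p₂ ≠ 0 ∧ star p₁ = p₁ ∧ star p₂ = p₂ ∧ p₁ * p₁ = p₁ ∧
      p₂ * p₂ = p₂ ∧ r * p₁ = p₁ ∧ r * p₂ = p₂ ∧ p₁ * p₂ = 0 := by
  obtain ⟨x, hx, hxne⟩ := hM.corner hr hr0 hrs hrr
  set y := r * x * r with hy
  have hyM : y ∈ M := mul_mem (mul_mem hr hx) hr
  have hry : r * y = y := by rw [hy, ← mul_assoc, ← mul_assoc, hrr]
  have hyr : y * r = y := by rw [hy, mul_assoc, hrr]
  have hrys : r * star y = star y := by
    have := congrArg star hyr
    rwa [star_mul, hrs] at this
  set a : H →L[ℂ] H := y + star y with ha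
  set b : H →L[ℂ] H := Complex.I • (y - star y) with hb
  have haM : a ∈ M := add_mem hyM (star_mem hyM)
  have hbM : b ∈ M := smul_mem' _ (sub_mem hyM (star_mem hyM))
  have has : IsSelfAdjoint a := by
    rw [isSelfAdjoint_iff, ha, star_add, star_star, add_comm]
  have hbs : IsSelfAdjoint b := by
    rw [isSelfAdjoint_iff, hb, star_smul, star_sub, star_star]
    have : star Complex.I = -Complex.I := Complex.conj_I
    rw [this, neg_smul, ← smul_neg, neg_sub]
  have hra : r * a = a := by rw [ha, mul_add, hry, hrys]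
  have hrb : r * b = b := by rw [hb, mul_smul_comm, mul_sub, hry, hrys]
  by_cases h1 : ∀ c : ℂ, a ≠ c • r
  · exact exists_two_of_sa hr hrs hrr haM has hra h1
  · by_cases h2 : ∀ c : ℂ, b ≠ c • r
    · exact exists_two_of_sa hr hrs hrr hbM hbs hrb h2
    · exfalso
      push Not at h1 h2
      obtain ⟨c, hc⟩ := h1
      obtain ⟨d, hd⟩ := h2
      apply hxne ((1/2:ℂ) * c - (Complex.I / 2) * d)
      have e : y = (1/2:ℂ) • a - (Complex.I / 2) • b := by
        rw [ha, hb, smul_smul]
        have : Complex.I / 2 * Complex.I = -(1/2:ℂ) := by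
          have := Complex.I_mul_I
          linear_combination (1/2:ℂ) * this
        rw [this]
        simp only [smul_add, smul_sub, neg_smul]
        have h3 : (1/2:ℂ) • y + (1/2:ℂ) • y = y := by
          rw [← add_smul]; norm_num
        calc y = (1/2:ℂ) • y + (1/2:ℂ) • y := h3.symm
          _ = _ := by abel
      rw [e, hc, hd, smul_smul, smul_smul, sub_smul]

/-- In a good algebra, every nonzero corner contains a nonzero partial isometry of square zero. -/
lemma Good.exists_nilp {M : VonNeumannAlgebra H} (hM : Good M) {r : H →L[ℂ] H} (hr : r ∈ M)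
    (hr0 : r ≠ 0) (hrs : star r = r) (hrr : r * r = r) :
    ∃ w ∈ M, w ≠ 0 ∧ w * star w * w = w ∧ w * w = 0 ∧ r * w = w ∧ w * r = w := by
  obtain ⟨p₁, h1, p₂, h2, h10, h20, h1s, h2s, h1p, h2p, hr1, hr2, h12⟩ := hM.exists_two hr hr0 hrs hrr
  obtain ⟨x, hx, hxne⟩ := hM.factor.exists_ne (e := p₁) (f := p₂) h1 h10 h20
  obtain ⟨w, hw, hw0, hwww, hwe, hwf⟩ := exists_partialIsometry
    (mul_mem (mul_mem h2 hx) h1) hxne
  have e1 : w * p₁ = w := hwe p₁ h1s (by rw [mul_assoc, h1p])
  have e2 : p₂ * w = w := hwf p₂ (by rw [← mul_assoc, ← mul_assoc, h2p])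
  refine ⟨w, hw, hw0, hwww, ?_, ?_, ?_⟩
  · calc w * w = (w * p₁) * (p₂ * w) := by rw [e1, e2]
      _ = w * (p₁ * p₂) * w := by noncomm_ring
      _ = 0 := by rw [h12]; simp
  · rw [← e2, ← mul_assoc, hr2]
  · have h1r : p₁ * r = p₁ := by
      have := congrArg star hr1
      rwa [star_mul, hrs, h1s] at this
    rw [← e1, mul_assoc, h1r]

end Pool.Agent.H53.Ultra
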