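import Pool.Agent.H53.Ultra.VN2
import Pool.Agent.H53.Ultra.Blocks

set_option autoImplicit false

open Filter Topology

namespace Pool.Agent.H53.Ultra

universe u

variable {H : Type u} [NormedAddCommGroup H] [InnerProductSpace ℂ H] [CompleteSpace H]

lemma norm_le_one_of_pi {a : H →L[ℂ] H} (h : a * star a * a = a) : ‖a‖ ≤ 1 := by
  have h1 : ‖star a * a‖ = ‖a‖ * ‖a‖ := CStarRing.norm_star_mul_self
  have h2 : ‖star (star a * a) * (star a * a)‖ = ‖star a * a‖ * ‖star a * a‖ :=
    CStarRing.norm_star_mul_self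
  have h3 : star (star a * a) * (star a * a) = star a * a := by
    rw [star_mul, star_star]
    calc star a * a * (star a * a) = star a * (a * star a * a) := by noncomm_ring
      _ = _ := by rw [h]
  rw [h3] at h2
  have h4 : ‖star a * a‖ ≤ 1 := by
    by_contra hc
    push Not at hc
    nlinarith
  by_contra hc
  push Not at hc
  rw [h1] at h4
  nlinarith

/-- The strong sum of an orthogonal family of partial isometries. -/
lemma exists_orthSum {ι : Type*} (w : ι → (H →L[ℂ] H)) (hw : ∀ i, w i * star (w i) * w i = w i)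
    (h1 : ∀ i j, i ≠ j → star (w i) * w j = 0) (h2 : ∀ i j, i ≠ j → w i * star (w j) = 0) :
    ∃ W : H →L[ℂ] H, (∀ i, star (w i) * W = star (w i) * w i) ∧
      (∀ i, W * star (w i) = w i * star (w i)) ∧
      (∀ T : H →L[ℂ] H, (∀ i, T * w i = 0) → T * W = 0) ∧
      (∀ T : H →L[ℂ] H, (∀ i, w i * T = 0) → W * T = 0) ∧
      (∀ y : H →L[ℂ] H, (∀ i, y * w i = w i * y) → y * W = W * y) := by
  classical
  -- finite sums are contractions
  have hfin : ∀ F : Finset ι, ‖∑ i ∈ F, w i‖ ≤ 1 := by
    intro F
    apply norm_le_one_of_pi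
    have e1 : (∑ i ∈ F, w i) * star (∑ i ∈ F, w i) = ∑ i ∈ F, w i * star (w i) := by
      rw [star_sum, Finset.sum_mul]
      apply Finset.sum_congr rfl
      intro i hi
      rw [Finset.mul_sum, Finset.sum_eq_single i]
      · intro j _ hj; exact h2 i j (Ne.symm hj)
      · intro h; exact absurd hi h
    rw [e1, Finset.sum_mul]
    apply Finset.sum_congr rfl
    intro i hi
    rw [Finset.mul_sum, Finset.sum_eq_single i]
    · exact hw i
    · intro j _ hj
      rw [mul_assoc, h1 i j (Ne.symm hj), mul_zero]
    · intro h; exact absurd hi h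
  have horth : ∀ i j, i ≠ j → ∀ v v' : H, inner ℂ (w i v) (w j v') = 0 := by
    intro i j hij v v'
    rw [← ContinuousLinearMap.adjoint_inner_right, ← ContinuousLinearMap.star_eq_adjoint,
      ← mul_apply_eq_comp, h1 i j hij]
    simp
  have hV : OrthogonalFamily ℂ (fun i => LinearMap.range (w i : H →ₗ[ℂ] H))
      (fun i => (LinearMap.range (w i : H →ₗ[ℂ] H)).subtypeₗᵢ) := by
    intro i j hij
    rintro ⟨_, v, rfl⟩ ⟨_, v', rfl⟩
    exact horth i j hij v v'
  have hsum : ∀ ξ : H, Summable (fun i => w i ξ) := by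
    intro ξ
    have := (hV.summable_iff_norm_sq_summable (fun i => ⟨w i ξ, ⟨ξ, rfl⟩⟩)).mpr ?_
    · exact this
    · apply summable_of_sum_le (c := ‖ξ‖ ^ 2)
      · intro i; positivity
      · intro F
        have h3 : ‖(∑ i ∈ F, w i) ξ‖ ^ 2 = ∑ i ∈ F, ‖w i ξ‖ ^ 2 := by
          have := hV.norm_sum (fun i => ⟨w i ξ, ⟨ξ, rfl⟩⟩) F
          rw [_root_.sum_apply]
          exact this
        have h4 : ‖(∑ i ∈ F, w i) ξ‖ ≤ ‖ξ‖ := by
          have := ContinuousLinearMap.le_of_opNorm_le _ (hfin F) ξ
          rwa [one_mul] at this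
        calc ∑ i ∈ F, ‖(⟨w i ξ, ⟨ξ, rfl⟩⟩ : LinearMap.range (w i : H →ₗ[ℂ] H))‖ ^ 2
            = ‖(∑ i ∈ F, w i) ξ‖ ^ 2 := h3.symm
          _ ≤ ‖ξ‖ ^ 2 := pow_le_pow_left₀ (norm_nonneg _) h4 2
  let W₀ : H →ₗ[ℂ] H :=
    { toFun := fun ξ => ∑' i, w i ξ
      map_add' := fun ξ η => by
        simp only [map_add]
        exact (hsum ξ).tsum_add (hsum η)
      map_smul' := fun c ξ => by
        simp only [map_smul, RingHom.id_apply]
        exact (hsum ξ).tsum_const_smul c }
  have hbd : ∀ ξ, ‖W₀ ξ‖ ≤ 1 * ‖ξ‖ := by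
    intro ξ
    have hs := (hsum ξ).hasSum
    have : Tendsto (fun F : Finset ι => ‖∑ i ∈ F, w i ξ‖) atTop (𝓝 ‖∑' i, w i ξ‖) := hs.norm
    apply le_of_tendsto this
    filter_upwards with F
    rw [← _root_.sum_apply]
    exact ContinuousLinearMap.le_of_opNorm_le _ (hfin F) ξ
  let W : H →L[ℂ] H := W₀.mkContinuous 1 hbd
  have hW : ∀ ξ, W ξ = ∑' i, w i ξ := fun ξ => rfl
  have hTW : ∀ (T : H →L[ℂ] H) ξ, T (W ξ) = ∑' i, T (w i ξ) := by
    intro T ξ
    rw [hW]
    exact T.map_tsum (hsum ξ)
  refine ⟨W, ?_, ?_, ?_, ?_, ?_⟩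
  · intro i
    ext ξ
    rw [mul_apply_eq_comp, hTW, tsum_eq_single i]
    · rfl
    · intro j hj
      rw [← mul_apply_eq_comp, h1 i j (Ne.symm hj)]
      rfl
  · intro i
    ext ξ
    rw [mul_apply_eq_comp, hW, tsum_eq_single i]
    · rfl
    · intro j hj
      rw [← mul_apply_eq_comp, h2 j i hj]
      rfl
  · intro T hT
    ext ξ
    rw [mul_apply_eq_comp, hTW]
    have : ∀ i, T (w i ξ) = 0 := fun i => by
      rw [← mul_apply_eq_comp, hT i]; rfl
    simp [this]
  · intro T hT
    ext ξ
    rw [mul_apply_eq_comp, hW]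
    have : ∀ i, w i (T ξ) = 0 := fun i => by
      rw [← mul_apply_eq_comp, hT i]; rfl
    simp [this]
  · intro y hy
    ext ξ
    rw [mul_apply_eq_comp, mul_apply_eq_comp, hTW, hW]
    congr 1
    funext i
    rw [← mul_apply_eq_comp, hy i]
    rfl

/-- A good algebra contains a unital copy of the two by two matrices. -/
theorem Good.exists_full {M : VonNeumannAlgebra H} (hM : Good M) :
    ∃ W ∈ M, W * W = 0 ∧ W * star W * W = W ∧ star W * W + W * star W = 1 := by
  let P : (H →L[ℂ] H) → Prop := fun w => w ∈ M ∧ w ≠ 0 ∧ w * star w * w = w ∧ w * w = 0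
  let R : (H →L[ℂ] H) → (H →L[ℂ] H) → Prop := fun w w' =>
    w * w' = 0 ∧ w * star w' = 0 ∧ star w * w' = 0
  let 𝒞 : Set (Set (H →L[ℂ] H)) := {S | (∀ w ∈ S, P w) ∧ S.Pairwise R}
  obtain ⟨S, hS⟩ := zorn_subset 𝒞 (by
    intro c hc hchain
    refine ⟨⋃₀ c, ⟨?_, ?_⟩, fun s hs => Set.subset_sUnion_of_mem hs⟩
    · rintro w ⟨s, hs, hw⟩
      exact (hc hs).1 w hw
    · rw [Set.pairwise_sUnion hchain.directedOn]
      intro s hs
      exact (hc hs).2)
  obtain ⟨⟨hSP, hSR⟩, hmax⟩ := hS
  set w : S → (H →L[ℂ] H) := Subtype.val with hwdef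
  have hwM : ∀ i : S, w i ∈ M := fun i => (hSP i.1 i.2).1
  have hwp : ∀ i : S, w i * star (w i) * w i = w i := fun i => (hSP i.1 i.2).2.2.1
  have hww : ∀ i : S, w i * w i = 0 := fun i => (hSP i.1 i.2).2.2.2
  have hR : ∀ i j : S, i ≠ j → R (w i) (w j) := fun i j hij =>
    hSR i.2 j.2 (fun h => hij (Subtype.ext h))
  obtain ⟨W, hW1, hW2, hW3, hW4, hW5⟩ := exists_orthSum w hwp (fun i j hij => (hR i j hij).2.2)
    (fun i j hij => (hR i j hij).2.1)
  have hWM : W ∈ M := by
    apply mem_of_commute
    intro y hy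
    apply hW5
    intro i
    exact (commute_of_mem (hwM i) hy).symm
  have hwij : ∀ i j, w i * w j = 0 := by
    intro i j
    by_cases hij : i = j
    · rw [hij]; exact hww j
    · exact (hR i j hij).1
  have hwW : ∀ i, w i * W = 0 := fun i => hW3 _ (hwij i)
  have hWw : ∀ i, W * w i = 0 := fun i => hW4 _ (fun j => hwij j i)
  have hWW : W * W = 0 := hW3 _ hWw
  have hsWw : ∀ i, star W * w i = star (w i) * w i := by
    intro i
    have := congrArg star (hW1 i)
    rwa [star_mul, star_star, star_mul, star_star] at this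
  have hwsW : ∀ i, w i * star W = w i * star (w i) := by
    intro i
    have := congrArg star (hW2 i)
    rwa [star_mul, star_star, star_mul, star_star] at this
  have hsw : ∀ i, W * (star (w i) * w i) = w i := by
    intro i
    rw [← mul_assoc, hW2, hwp]
  have hWWW : W * star W * W = W := by
    have h1 : (W * star W - 1) * W = 0 := by
      apply hW3
      intro i
      rw [sub_mul, one_mul, mul_assoc, hsWw, hsw, sub_self]
    rw [sub_mul, one_mul, sub_eq_zero] at h1
    exact h1
  refine ⟨W, hWM, hWW, hWWW, ?_⟩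
  by_contra hne
  set e : H →L[ℂ] H := star W * W + W * star W with he
  have hsWW : star W * star W = 0 := by
    have := congrArg star hWW
    rwa [star_mul, star_zero] at this
  have hee : e * e = e := by
    have h1 : star W * W * (star W * W) = star W * W := by
      calc star W * W * (star W * W) = star W * (W * star W * W) := by noncomm_ring
        _ = _ := by rw [hWWW]
    have h2 : W * star W * (W * star W) = W * star W := by
      calc W * star W * (W * star W) = (W * star W * W) * star W := by noncomm_ring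
        _ = _ := by rw [hWWW]
    have h3 : star W * W * (W * star W) = 0 := by
      calc star W * W * (W * star W) = star W * (W * W) * star W := by noncomm_ring
        _ = 0 := by rw [hWW]; simp
    have h4 : W * star W * (star W * W) = 0 := by
      calc W * star W * (star W * W) = W * (star W * star W) * W := by noncomm_ring
        _ = 0 := by rw [hsWW]; simp
    rw [he, add_mul, mul_add, mul_add, h1, h2, h3, h4, add_zero, zero_add]
  have hes : star e = e := by
    rw [he, star_add, star_mul, star_mul, star_star]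
  have heM : e ∈ M := add_mem (mul_mem (star_mem hWM) hWM) (mul_mem hWM (star_mem hWM))
  have hr0 : (1 : H →L[ℂ] H) - e ≠ 0 := by
    intro h; apply hne; rw [sub_eq_zero] at h; exact h.symm
  have hrr : (1 - e) * (1 - e) = 1 - e := by
    rw [sub_mul, one_mul, mul_sub, mul_one, hee]; abel
  have hrs : star (1 - e) = 1 - e := by rw [star_sub, star_one, hes]
  obtain ⟨v, hvM, hv0, hvvv, hvv, hrv, hvr⟩ := hM.exists_nilp (sub_mem (one_mem _) heM) hr0 hrs hrr
  have hrw : ∀ i, (1 - e) * w i = 0 := by
    intro i
    have : e * w i = w i := by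
      rw [he, add_mul, mul_assoc, hWw, mul_zero, zero_add, mul_assoc, hsWw, hsw]
    rw [sub_mul, one_mul, this, sub_self]
  have hwr : ∀ i, w i * (1 - e) = 0 := by
    intro i
    have : w i * e = w i := by
      rw [he, mul_add, ← mul_assoc, ← mul_assoc, hwsW, hwW, zero_mul, add_zero, mul_assoc, hW1,
        ← mul_assoc, hwp]
    rw [mul_sub, mul_one, this, sub_self]
  have hsrw : ∀ i, star (w i) * (1 - e) = 0 := by
    intro i
    have := congrArg star (hrw i)
    rwa [star_mul, hrs, star_zero] at this
  have hsv : (1 - e) * star v = star v := by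
    have := congrArg star hvr
    rwa [star_mul, hrs] at this
  have hvs : star v * (1 - e) = star v := by
    have := congrArg star hrv
    rwa [star_mul, hrs] at this
  have hvS : v ∉ S := by
    intro hv
    have h1 := hrw ⟨v, hv⟩
    exact hv0 (hrv.symm.trans h1)
  have hins : insert v S ∈ 𝒞 := by
    refine ⟨?_, ?_⟩
    · intro w' hw'
      rcases Set.mem_insert_iff.mp hw' with h | h
      · rw [h]; exact ⟨hvM, hv0, hvvv, hvv⟩
      · exact hSP w' h
    · rw [Set.pairwise_insert_of_notMem hvS]
      refine ⟨hSR, ?_⟩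
      intro x hx
      set i : S := ⟨x, hx⟩ with hi
      have hxi : x = w i := rfl
      refine ⟨⟨?_, ?_, ?_⟩, ⟨?_, ?_, ?_⟩⟩
      · rw [← hvr, mul_assoc, hxi, hrw, mul_zero]
      · rw [← hvr, mul_assoc, hxi]
        have := congrArg star (hwr i)
        rw [star_mul, hrs, star_zero] at this
        rw [this, mul_zero]
      · rw [← hvs, mul_assoc, hxi, hrw, mul_zero]
      · rw [← hrv, ← mul_assoc, hxi, hwr, zero_mul]
      · rw [← hsv, ← mul_assoc, hxi, hwr, zero_mul]
      · rw [← hrv, ← mul_assoc, hxi, hsrw, zero_mul]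
  have := hmax hins (Set.subset_insert v S)
  exact hvS (this (Set.mem_insert v S))

/-- A good algebra contains a site. -/
theorem Good.exists_site {M : VonNeumannAlgebra H} (hM : Good M) :
    ∃ z ∈ M, ∃ s ∈ M, IsSite z s := by
  obtain ⟨W, hWM, hWW, hWWW, hW1⟩ := hM.exists_full
  have hsWW : star W * star W = 0 := by
    have := congrArg star hWW
    rwa [star_mul, star_zero] at this
  have hsWWW : star W * W * star W = star W := by
    have := congrArg star hWWW
    rw [star_mul, star_mul, star_star] at this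
    rw [mul_assoc]; exact this
  have m1 := star_mem hWM
  refine ⟨star W * W - W * star W, sub_mem (mul_mem m1 hWM) (mul_mem hWM m1),
    W + star W, add_mem hWM m1, ?_, ?_, ?_, ?_, ?_⟩
  · rw [star_sub, star_mul, star_mul, star_star]
  · calc (star W * W - W * star W) * (star W * W - W * star W)
        = star W * (W * star W * W) - star W * (W * W) * star W - W * (star W * star W) * W
          + (W * star W * W) * star W := by noncomm_ring
      _ = star W * W + W * star W := by rw [hWWW, hWW, hsWW]; simp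
      _ = 1 := hW1
  · rw [star_add, star_star, add_comm]
  · calc (W + star W) * (W + star W) = W * W + star W * star W + (star W * W + W * star W) := by
          noncomm_ring
      _ = 1 := by rw [hWW, hsWW, hW1]; simp
  · have e1 : (star W * W - W * star W) * (W + star W) = star W - W := by
      calc (star W * W - W * star W) * (W + star W)
          = star W * (W * W) + star W * W * star W - W * star W * W - W * (star W * star W) := by
            noncomm_ring
        _ = _ := by rw [hWWW, hWW, hsWW, hsWWW]; simp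
    have e2 : (W + star W) * (star W * W - W * star W) = W - star W := by
      calc (W + star W) * (star W * W - W * star W)
          = W * star W * W - W * W * star W + star W * star W * W - star W * W * star W := by
            noncomm_ring
        _ = _ := by rw [hWWW, hWW, hsWW, hsWWW]; simp
    rw [e1, e2]; abel

end Pool.Agent.H53.Ultra
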