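import Pool.Agent.H53.Ultra.VN3

set_option autoImplicit false

open Filter Topology
open scoped ComplexOrder

namespace Pool.Agent.H53.Ultra

universe u v

variable {H : Type u} [NormedAddCommGroup H] [InnerProductSpace ℂ H] [CompleteSpace H]

/-- the commutant of `z, s` inside `M` -/
noncomputable def relComm (M : VonNeumannAlgebra H) (z s : H →L[ℂ] H) : VonNeumannAlgebra H where
  toStarSubalgebra := StarSubalgebra.centralizer ℂ
    ((M.commutant : Set (H →L[ℂ] H)) ∪ {z, s})
  centralizer_centralizer' := by
    simp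

lemma mem_relComm {M : VonNeumannAlgebra H} {z s : H →L[ℂ] H} (hz : star z = z) (hs : star s = s)
    {x : H →L[ℂ] H} : x ∈ relComm M z s ↔ x ∈ M ∧ x * z = z * x ∧ x * s = s * x := by
  change x ∈ StarSubalgebra.centralizer ℂ ((M.commutant : Set (H →L[ℂ] H)) ∪ {z, s}) ↔ _
  rw [StarSubalgebra.mem_centralizer_iff]
  constructor
  · intro h
    refine ⟨?_, ?_, ?_⟩
    · apply mem_of_commute
      intro y hy
      exact (h y (Or.inl hy)).1
    · exact (h z (Or.inr (by simp))).1.symm
    · exact (h s (Or.inr (by simp))).1.symm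
  · rintro ⟨hx, h1, h2⟩ y hy
    rcases hy with hy | hy
    · exact ⟨(commute_of_mem hx hy).symm, (commute_of_mem hx (star_mem hy)).symm⟩
    · rcases hy with hy | hy
      · rw [hy]; exact ⟨h1.symm, by rw [hz]; exact h1.symm⟩
      · rw [Set.mem_singleton_iff] at hy
        rw [hy]; exact ⟨h2.symm, by rw [hs]; exact h2.symm⟩

/-- four times the conditional expectation onto the commutant of a site -/
def ex4 {B : Type*} [Ring B] (z s x : B) : B := x + z * x * z + s * x * s + z * s * x * (s * z)

lemma ex4_z {B : Type*} [Ring B] [StarRing B] {z s : B} (h : IsSite z s) (x : B) :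
    ex4 z s x * z = z * ex4 z s x := by
  unfold ex4
  have hzz := h.z_sq
  have hss := h.s_sq
  have ha := h.anti
  have e1 : z * x * z * z = z * x := by rw [mul_assoc (z * x), hzz, mul_one]
  have e2 : s * x * s * z = z * (z * s * x * (s * z)) := by
    calc s * x * s * z = (z * z) * s * x * s * z := by rw [hzz, one_mul]
      _ = _ := by noncomm_ring
  have e3 : z * s * x * (s * z) * z = z * (s * x * s) := by
    calc z * s * x * (s * z) * z = z * s * x * s * (z * z) := by noncomm_ring
      _ = _ := by rw [hzz]; noncomm_ring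
  have e4 : x * z = z * (z * x * z) := by
    calc x * z = (z * z) * (x * z) := by rw [hzz, one_mul]
      _ = _ := by noncomm_ring
  rw [add_mul, add_mul, add_mul, e1, e2, e3, mul_add, mul_add, mul_add, ← e4]
  abel

lemma ex4_s {B : Type*} [Ring B] [StarRing B] {z s : B} (h : IsSite z s) (x : B) :
    ex4 z s x * s = s * ex4 z s x := by
  unfold ex4
  have hzz := h.z_sq
  have hss := h.s_sq
  have ha := h.anti
  have e1 : x * s = s * (s * x * s) := by
    calc x * s = (s * s) * (x * s) := by rw [hss, one_mul]
      _ = _ := by noncomm_ring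
  have e2 : s * x * s * s = s * x := by rw [mul_assoc (s * x), hss, mul_one]
  have e3 : z * x * z * s = s * (z * s * x * (s * z)) := by
    have : s * (z * s * x * (s * z)) = (s * z) * s * x * (s * z) := by noncomm_ring
    rw [this]
    have h1 : s * z = -(z * s) := by rw [ha, neg_neg]
    rw [h1]
    calc z * x * z * s = z * (1 : B) * x * (z * s) := by noncomm_ring
      _ = z * (s * s) * x * (z * s) := by rw [hss]
      _ = _ := by noncomm_ring
  have e4 : z * s * x * (s * z) * s = s * (z * x * z) := by
    have h1 : s * z = -(z * s) := by rw [ha, neg_neg]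
    calc z * s * x * (s * z) * s = z * s * x * (-(z * s)) * s := by rw [h1]
      _ = -(z * s) * x * z * (s * s) := by noncomm_ring
      _ = (s * z) * x * z := by rw [hss, h1]; noncomm_ring
      _ = _ := by noncomm_ring
  rw [add_mul, add_mul, add_mul, e2, e3, e4, mul_add, mul_add, mul_add, ← e1]
  abel

lemma ex4_decomp {B : Type*} [Ring B] [StarRing B] {z s : B} (h : IsSite z s) (x : B) :
    ex4 z s x + ex4 z s (x * z) * z + ex4 z s (x * s) * s + ex4 z s (x * (s * z)) * (z * s) =
      4 * x := by
  unfold ex4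
  have hzz := h.z_sq
  have hss := h.s_sq
  have ha := h.anti
  have h1 : s * z = -(z * s) := by rw [ha, neg_neg]
  have hszs : s * z * s = -z := by
    rw [mul_assoc, ha, mul_neg, ← mul_assoc, hss, one_mul]
  have hzsz : z * s * z = -s := by
    rw [mul_assoc, h1, mul_neg, ← mul_assoc, hzz, one_mul]
  have c1 : (1 : B) + z * z + s * s + s * z * (z * s) = 4 := by
    have : s * z * (z * s) = s * (z * z) * s := by noncomm_ring
    rw [this, hzz, hss, mul_one, hss]; norm_num
  have c2 : z + z * z * z + s * z * s + s * z * z * (z * s) = 0 := by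
    have : s * z * z * (z * s) = s * (z * z) * z * s := by noncomm_ring
    rw [this, hzz, mul_one, hszs, one_mul]; abel
  have c3 : s + z * s * z + s * s * s + s * z * s * (z * s) = 0 := by
    have : s * z * s * (z * s) = (s * z * s) * z * s := by noncomm_ring
    rw [this, hszs, hzsz, hss, one_mul, neg_mul, hzz, neg_mul, one_mul]; abel
  have c4 : s * z + z * (s * z) * z + s * (s * z) * s + s * z * (s * z) * (z * s) = 0 := by
    have e1 : z * (s * z) * z = z * s * (z * z) := by noncomm_ring
    have e2 : s * (s * z) * s = (s * s) * z * s := by noncomm_ring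
    have e3 : s * z * (s * z) * (z * s) = s * z * s * (z * z) * s := by noncomm_ring
    rw [e1, e2, e3, hzz, hss, mul_one, one_mul, mul_one, hszs, h1, neg_mul]; abel
  have key : (x + z * x * z + s * x * s + z * s * x * (s * z)) +
      (x * z + z * (x * z) * z + s * (x * z) * s + z * s * (x * z) * (s * z)) * z +
      (x * s + z * (x * s) * z + s * (x * s) * s + z * s * (x * s) * (s * z)) * s +
      (x * (s * z) + z * (x * (s * z)) * z + s * (x * (s * z)) * s +
        z * s * (x * (s * z)) * (s * z)) * (z * s) =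
      x * (1 + z * z + s * s + s * z * (z * s)) +
      z * x * (z + z * z * z + s * z * s + s * z * z * (z * s)) +
      s * x * (s + z * s * z + s * s * s + s * z * s * (z * s)) +
      z * s * x * (s * z + z * (s * z) * z + s * (s * z) * s + s * z * (s * z) * (z * s)) := by
    noncomm_ring
  rw [key, c1, c2, c3, c4, mul_zero, mul_zero, mul_zero, add_zero, add_zero, add_zero]
  noncomm_ring

lemma ex4_mem {M : VonNeumannAlgebra H} {z s : H →L[ℂ] H} (hz : z ∈ M) (hs : s ∈ M)
    (h : IsSite z s) {x : H →L[ℂ] H} (hx : x ∈ M) : ex4 z s x ∈ relComm M z s := by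
  rw [mem_relComm h.star_z h.star_s]
  refine ⟨?_, ex4_z h x, ex4_s h x⟩
  unfold ex4
  exact add_mem (add_mem (add_mem hx (mul_mem (mul_mem hz hx) hz)) (mul_mem (mul_mem hs hx) hs))
    (mul_mem (mul_mem (mul_mem hz hs) hx) (mul_mem hs hz))

lemma relComm_le {M : VonNeumannAlgebra H} {z s : H →L[ℂ] H} (h : IsSite z s) {x : H →L[ℂ] H}
    (hx : x ∈ relComm M z s) : x ∈ M := ((mem_relComm h.star_z h.star_s).mp hx).1

/-- The relative commutant of a site in a good algebra is good. -/
theorem Good.relComm {M : VonNeumannAlgebra H} (hM : Good M) {z s : H →L[ℂ] H} (hz : z ∈ M)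
    (hs : s ∈ M) (h : IsSite z s) : Good (relComm M z s) := by
  have hsz : s * z = -(z * s) := by rw [h.anti, neg_neg]
  refine ⟨?_, ?_, ?_⟩
  · intro x hx hcomm
    have hx' := (mem_relComm h.star_z h.star_s).mp hx
    apply hM.factor x hx'.1
    intro y hy
    have h4 : x * (4 * y) = (4 * y) * x := by
      rw [← ex4_decomp h y]
      have k : ∀ y' ∈ M, x * ex4 z s y' = ex4 z s y' * x := fun y' hy' =>
        hcomm _ (ex4_mem hz hs h hy')
      have k0 := k y hy
      have k1 := k _ (mul_mem hy hz)
      have k2 := k _ (mul_mem hy hs)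
      have k3 := k _ (mul_mem hy (mul_mem hs hz))
      have xz := hx'.2.1
      have xs := hx'.2.2
      rw [mul_add, mul_add, mul_add, add_mul, add_mul, add_mul, k0]
      congr 1
      · congr 1
        · congr 1
          rw [← mul_assoc, k1, mul_assoc, xz, ← mul_assoc]
        · rw [← mul_assoc, k2, mul_assoc, xs, ← mul_assoc]
      · rw [← mul_assoc, k3, mul_assoc, ← mul_assoc x, xz, mul_assoc z, xs, ← mul_assoc z,
          ← mul_assoc]
    have e : ∀ a : H →L[ℂ] H, 4 * a = (4:ℂ) • a := by
      intro a
      have : (4 : H →L[ℂ] H) = (4:ℂ) • 1 := by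
        rw [← Algebra.algebraMap_eq_smul_one, map_ofNat]
      rw [this, smul_mul_assoc, one_mul]
    rw [e, mul_smul_comm, smul_mul_assoc] at h4
    have := congrArg (fun T => (4:ℂ)⁻¹ • T) h4
    simpa [smul_smul] using this
  · intro F hF
    classical
    apply hM.inf (F ∪ F.image (· * z) ∪ F.image (· * s) ∪ F.image (· * (z * s)))
    intro y hy
    have e : y = (1/4:ℂ) • (ex4 z s y + ex4 z s (y * z) * z + ex4 z s (y * s) * s +
        ex4 z s (y * (s * z)) * (z * s)) := by
      rw [ex4_decomp h y]
      have : (4 : H →L[ℂ] H) = (4:ℂ) • 1 := by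
        rw [← Algebra.algebraMap_eq_smul_one, map_ofNat]
      rw [this, smul_mul_assoc, one_mul, smul_smul]
      norm_num
    rw [e]
    have hmem : ∀ y' ∈ M, ex4 z s y' ∈ Submodule.span ℂ (F : Set (H →L[ℂ] H)) := fun y' hy' =>
      hF (ex4_mem hz hs h hy')
    have hmul : ∀ (a : H →L[ℂ] H), a ∈ Submodule.span ℂ (F : Set (H →L[ℂ] H)) → ∀ u : H →L[ℂ] H,
        a * u ∈ Submodule.span ℂ ((F.image (· * u) : Finset (H →L[ℂ] H)) : Set (H →L[ℂ] H)) := by
      intro a ha u
      rw [Finset.coe_image]
      have := Submodule.mem_map_of_mem (f := (LinearMap.mulRight ℂ u)) ha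
      rw [Submodule.map_span] at this
      exact this
    have s0 : ((F : Set (H →L[ℂ] H))) ⊆
      ((F ∪ F.image (· * z) ∪ F.image (· * s) ∪ F.image (· * (z * s)) : Finset _) :
        Set (H →L[ℂ] H)) := by
      intro t ht; simp only [Finset.coe_union]; exact Or.inl (Or.inl (Or.inl ht))
    have s1 : ((F.image (· * z) : Finset (H →L[ℂ] H)) : Set (H →L[ℂ] H)) ⊆
      ((F ∪ F.image (· * z) ∪ F.image (· * s) ∪ F.image (· * (z * s)) : Finset _) :
        Set (H →L[ℂ] H)) := by
      intro t ht; simp only [Finset.coe_union]; exact Or.inl (Or.inl (Or.inr ht))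
    have s2 : ((F.image (· * s) : Finset (H →L[ℂ] H)) : Set (H →L[ℂ] H)) ⊆
      ((F ∪ F.image (· * z) ∪ F.image (· * s) ∪ F.image (· * (z * s)) : Finset _) :
        Set (H →L[ℂ] H)) := by
      intro t ht; simp only [Finset.coe_union]; exact Or.inl (Or.inr ht)
    have s3 : ((F.image (· * (z * s)) : Finset (H →L[ℂ] H)) : Set (H →L[ℂ] H)) ⊆
      ((F ∪ F.image (· * z) ∪ F.image (· * s) ∪ F.image (· * (z * s)) : Finset _) :
        Set (H →L[ℂ] H)) := by
      intro t ht; simp only [Finset.coe_union]; exact Or.inr ht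
    apply Submodule.smul_mem
    refine Submodule.add_mem _ (Submodule.add_mem _ (Submodule.add_mem _ ?_ ?_) ?_) ?_
    · exact Submodule.span_mono s0 (hmem _ hy)
    · exact Submodule.span_mono s1 (hmul _ (hmem _ (mul_mem hy hz)) z)
    · exact Submodule.span_mono s2 (hmul _ (hmem _ (mul_mem hy hs)) s)
    · exact Submodule.span_mono s3 (hmul _ (hmem _ (mul_mem hy (mul_mem hs hz))) (z * s))
  · intro r hr hr0 hrs hrr
    obtain ⟨n₀, hn₀⟩ := hM.fin r (relComm_le h hr) hr0 hrs hrr
    refine ⟨n₀, fun n hn => hn₀ n ?_⟩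
    obtain ⟨w, hw, hwo⟩ := hn
    exact ⟨w, fun i => ⟨relComm_le h (hw i).1, (hw i).2⟩, hwo⟩

/-- An infinite-dimensional factor with a faithful tracial state is good. -/
theorem good_of_trace {N : VonNeumannAlgebra H} (hN : IsFactor N)
    (hinf : ¬ FiniteDimensional ℂ N.toStarSubalgebra) (τ : FaithfulTracialState N) : Good N := by
  refine ⟨hN, ?_, ?_⟩
  · intro F hF
    apply hinf
    have hfd : FiniteDimensional ℂ (Submodule.span ℂ (F : Set (H →L[ℂ] H))) :=
      FiniteDimensional.span_finset ℂ F
    let i : N.toStarSubalgebra →ₗ[ℂ] Submodule.span ℂ (F : Set (H →L[ℂ] H)) :=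
      { toFun := fun x => ⟨x.1, hF x.2⟩
        map_add' := fun _ _ => rfl
        map_smul' := fun _ _ => rfl }
    exact FiniteDimensional.of_injective i (fun x y hxy => by
      apply Subtype.ext
      have h3 : (i x : H →L[ℂ] H) = (i y : H →L[ℂ] H) := by rw [hxy]
      exact h3)
  · intro r hr hr0 hrs hrr
    set r' : N.toStarSubalgebra := ⟨r, hr⟩ with hr'
    have hpos : (r' : H →L[ℂ] H).IsPositive := by
      have e : (r' : H →L[ℂ] H) = ((star r' * r' : N.toStarSubalgebra) : H →L[ℂ] H) := by
        change r = star r * r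
        rw [hrs, hrr]
      rw [e]
      exact FaithfulTracialState.isPositive_star_mul r'
    have h0 := τ.nonneg r' hpos
    have hne : τ.toFun r' ≠ 0 := by
      intro h
      have := τ.faithful r' hpos h
      exact hr0 (congrArg Subtype.val this)
    have h0r : 0 < (τ.toFun r').re := by
      have h1 := Complex.le_def.mp h0
      rcases h1.1.lt_or_eq with h2 | h2
      · simpa using h2
      · exfalso; apply hne
        apply Complex.ext
        · simpa using h2.symm
        · simpa using h1.2.symm
    obtain ⟨n₀, hn₀⟩ := exists_nat_gt (1 / (τ.toFun r').re)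
    refine ⟨n₀, fun n hn => ?_⟩
    obtain ⟨w, hw, hwo⟩ := hn
    let w' : Fin n → N.toStarSubalgebra := fun i => ⟨w i, (hw i).1⟩
    have hw' : ∀ i, star (w' i) * w' i = r' := fun i => Subtype.ext (hw i).2
    set p : N.toStarSubalgebra := ∑ i, w' i * star (w' i) with hp
    have hτp : τ.toFun p = n * τ.toFun r' := by
      rw [hp, map_sum]
      have : ∀ i ∈ (Finset.univ : Finset (Fin n)), τ.toFun (w' i * star (w' i)) = τ.toFun r' := by
        intro i _
        rw [τ.tracial, hw']
      rw [Finset.sum_congr rfl this]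
      simp
    have hwr : ∀ i, w' i * r' = w' i := by
      intro i
      have h1 : star (w i * (1 - r)) * (w i * (1 - r)) = 0 := by
        rw [star_mul, star_sub, star_one, hrs]
        calc (1 - r) * star (w i) * (w i * (1 - r)) = (1 - r) * (star (w i) * w i) * (1 - r) := by
              noncomm_ring
          _ = 0 := by rw [(hw i).2, sub_mul, one_mul, hrr, sub_self, zero_mul]
      have h2 := star_mul_self_eq_zero' h1
      rw [mul_sub, mul_one, sub_eq_zero] at h2
      exact Subtype.ext h2.symm
    have hwo' : ∀ i j, i ≠ j → star (w' i) * w' j = 0 := fun i j hij => Subtype.ext (hwo i j hij)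
    have hpp : p * p = p := by
      conv_lhs => rw [hp, Finset.sum_mul]
      rw [hp]
      apply Finset.sum_congr rfl
      intro i _
      rw [Finset.mul_sum, Finset.sum_eq_single i]
      · calc w' i * star (w' i) * (w' i * star (w' i)) =
            w' i * (star (w' i) * w' i) * star (w' i) := by noncomm_ring
          _ = _ := by rw [hw', hwr]
      · intro j _ hj
        calc w' i * star (w' i) * (w' j * star (w' j)) =
            w' i * (star (w' i) * w' j) * star (w' j) := by noncomm_ring
          _ = _ := by rw [hwo' i j (Ne.symm hj)]; simp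
      · intro h; exact absurd (Finset.mem_univ _) h
    have hps : star p = p := by
      rw [hp, star_sum]
      apply Finset.sum_congr rfl
      intro i _
      rw [star_mul, star_star]
    have hle : (τ.toFun p).re ≤ (τ.toFun 1).re := by
      apply τ.re_mono
      have e : (1 - p : N.toStarSubalgebra) = star (1 - p) * (1 - p) := by
        rw [star_sub, star_one, hps, sub_mul, one_mul, mul_sub, mul_one, hpp]; abel
      rw [e]
      exact FaithfulTracialState.isPositive_star_mul _
    rw [hτp, τ.map_one] at hle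
    simp only [Complex.mul_re, Complex.natCast_re, Complex.natCast_im, zero_mul, sub_zero,
      Complex.one_re] at hle
    have h3 : (n:ℝ) ≤ 1 / (τ.toFun r').re := by
      rw [le_div_iff₀ h0r]; exact hle
    have h4 : (n:ℝ) < n₀ := lt_of_le_of_lt h3 hn₀
    exact_mod_cast h4.le

/-- A good algebra contains an infinite sequence of commuting sites. -/
theorem Good.exists_sites {N : VonNeumannAlgebra H} (hN : Good N) :
    ∃ z s : ℕ → N.toStarSubalgebra, IsSites z s := by
  classical
  choose! Z hZ S hS hZS using fun (M : VonNeumannAlgebra H) (hM : Good M) => hM.exists_site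
  let A : ℕ → VonNeumannAlgebra H := fun n =>
    Nat.rec N (fun _ M => Pool.Agent.H53.Ultra.relComm M (Z M) (S M)) n
  have hA0 : A 0 = N := rfl
  have hA1 : ∀ n, A (n + 1) = Pool.Agent.H53.Ultra.relComm (A n) (Z (A n)) (S (A n)) := fun n => rfl
  have hgood : ∀ n, Good (A n) := by
    intro n
    induction n with
    | zero => exact hN
    | succ n ih =>
      rw [hA1]
      exact ih.relComm (hZ _ ih) (hS _ ih) (hZS _ ih)
  have hstep : ∀ n x, x ∈ A (n + 1) → x ∈ A n ∧ x * Z (A n) = Z (A n) * x ∧
      x * S (A n) = S (A n) * x := by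
    intro n x hx
    rw [hA1] at hx
    exact (mem_relComm (hZS _ (hgood n)).star_z (hZS _ (hgood n)).star_s).mp hx
  have hmono : ∀ m n, m ≤ n → ∀ x ∈ A n, x ∈ A m := by
    intro m n hmn
    induction hmn with
    | refl => intro x hx; exact hx
    | step _ ih => intro x hx; exact ih x (hstep _ x hx).1
  have hlt : ∀ m n, m < n → ∀ x ∈ A n, x * Z (A m) = Z (A m) * x ∧ x * S (A m) = S (A m) * x := by
    intro m n hmn x hx
    exact (hstep m x (hmono (m + 1) n hmn x hx)).2
  have hzN : ∀ n, Z (A n) ∈ N := fun n => hmono 0 n (Nat.zero_le _) _ (hZ _ (hgood n))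
  have hsN : ∀ n, S (A n) ∈ N := fun n => hmono 0 n (Nat.zero_le _) _ (hS _ (hgood n))
  have czz : ∀ m n, m < n → Z (A n) * Z (A m) = Z (A m) * Z (A n) := fun m n h =>
    (hlt m n h _ (hZ _ (hgood n))).1
  have czs : ∀ m n, m < n → Z (A n) * S (A m) = S (A m) * Z (A n) := fun m n h =>
    (hlt m n h _ (hZ _ (hgood n))).2
  have csz : ∀ m n, m < n → S (A n) * Z (A m) = Z (A m) * S (A n) := fun m n h =>
    (hlt m n h _ (hS _ (hgood n))).1
  have css : ∀ m n, m < n → S (A n) * S (A m) = S (A m) * S (A n) := fun m n h =>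
    (hlt m n h _ (hS _ (hgood n))).2
  refine ⟨fun n => ⟨Z (A n), hzN n⟩, fun n => ⟨S (A n), hsN n⟩, ?_, ?_, ?_, ?_⟩
  · intro n
    have h := hZS _ (hgood n)
    exact ⟨Subtype.ext h.star_z, Subtype.ext h.z_sq, Subtype.ext h.star_s, Subtype.ext h.s_sq,
      Subtype.ext h.anti⟩
  · intro k l hkl
    rcases lt_or_gt_of_ne hkl with h | h
    · exact Subtype.ext (czz k l h).symm
    · exact Subtype.ext (czz l k h)
  · intro k l hkl
    rcases lt_or_gt_of_ne hkl with h | h
    · exact Subtype.ext (csz k l h).symm
    · exact Subtype.ext (czs l k h)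
  · intro k l hkl
    rcases lt_or_gt_of_ne hkl with h | h
    · exact Subtype.ext (css k l h).symm
    · exact Subtype.ext (css l k h)

end Pool.Agent.H53.Ultra
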